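import Pool.Agent.Lib.P901b45e.Excess

/-!
Irreducible functions on at most six elements, for Frank's question on complementary vertices of integer
2-polymatroids (MP_901b45_co).
-/

set_option autoImplicit false

namespace Pool.Agent.P901b45d

open Finset Pool.Agent.P901b45e

variable {α : Type*} [DecidableEq α] {G : Finset α} {h : Finset α → ℤ}

/-- a vector with entries `1, -1, 0` is a solution if its zeros are separated -/
theorem sol_of (hh : Sub G h) (hG : h G = 0) {x : α → ℤ}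
    (hle : ∀ A ⊆ G, ∑ e ∈ A, x e ≤ h A) (hneg : ∀ A ⊆ G, -∑ e ∈ A, x e ≤ h A)
    (hval : ∀ e ∈ G, x e = 1 ∨ x e = -1 ∨ x e = 0)
    (hsep : ∀ i ∈ G, ∀ j ∈ G, i ≠ j → x i = 0 → x j = 0 → ∃ X ⊆ G, ∑ e ∈ X, x e = h X ∧
      ((i ∈ X ∧ j ∉ X) ∨ (j ∈ X ∧ i ∉ X))) : Sol G h x := by
  have htot : ∑ e ∈ G, x e = 0 := by
    have h1 := hle G (Subset.refl _)
    have h2 := hneg G (Subset.refl _)
    rw [hG] at h1 h2
    omega
  have hone : ∀ e ∈ G, x e = 1 → ∑ i ∈ ({e} : Finset α), x i = h {e} := by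
    intro e he hx
    have h1 := hle {e} (singleton_subset_iff.2 he)
    have h2 := hh.up ∅ (empty_subset _) e he
    rw [hh.empty] at h2
    have h3 : h {e} ≤ 1 := by simpa using h2
    rw [sum_singleton] at h1 ⊢
    omega
  have hmone : ∀ e ∈ G, x e = -1 → ∑ i ∈ G.erase e, x i = h (G.erase e) := by
    intro e he hx
    have h1 := hle (G.erase e) (erase_subset _ _)
    have h2 := hh.down (G.erase e) (erase_subset _ _) e he
    rw [insert_erase he, hG] at h2
    have h3 := Finset.add_sum_erase G x he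
    omega
  refine ⟨hle, hneg, by rw [htot, hG], ?_⟩
  intro i hi j hj hij
  rcases hval i hi with h1 | h1 | h1
  · exact ⟨{i}, singleton_subset_iff.2 hi, hone i hi h1, Or.inl ⟨mem_singleton_self i,
      fun h2 => hij (mem_singleton.1 h2).symm⟩⟩
  · exact ⟨G.erase i, erase_subset _ _, hmone i hi h1, Or.inr ⟨mem_erase.2 ⟨hij.symm, hj⟩,
      fun h2 => (mem_erase.1 h2).1 rfl⟩⟩
  · rcases hval j hj with h2 | h2 | h2
    · exact ⟨{j}, singleton_subset_iff.2 hj, hone j hj h2, Or.inr ⟨mem_singleton_self j,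
        fun h3 => hij (mem_singleton.1 h3)⟩⟩
    · exact ⟨G.erase j, erase_subset _ _, hmone j hj h2, Or.inl ⟨mem_erase.2 ⟨hij, hi⟩,
        fun h3 => (mem_erase.1 h3).1 rfl⟩⟩
    · exact hsep i hi j hj hij h1 h2

/-- no vector `e_p + e_p' - e_q - e_q'` below `h`: crossing families -/
theorem sol_of_no_four (hh : Sub G h) (hG : h G = 0) (hirr : ∀ A ⊆ G, A ≠ ∅ → A ≠ G → 1 ≤ h A)
    (hcard : ¬ G.card ≤ 1)
    (hfour : ¬ ∃ p ∈ G, ∃ p' ∈ G, ∃ q ∈ G, ∃ q' ∈ G, p ≠ p' ∧ q ≠ q' ∧ p ≠ q ∧ p ≠ q' ∧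
        p' ≠ q ∧ p' ≠ q' ∧ ∀ A ⊆ G, ∑ e ∈ A, vec p p' q q' e ≤ h A ∧
          -∑ e ∈ A, vec p p' q q' e ≤ h A) : ∃ x, Sol G h x := by
  push Not at hfour
  obtain ⟨a0, ha0, b0, hb0, hab0⟩ := one_lt_card.1 (not_le.1 hcard)
  have hle1 : ∀ a ∈ G, h {a} ≤ 1 := by
    intro a ha
    have := hh.up ∅ (empty_subset _) a ha
    rw [hh.empty] at this
    simpa using this
  have hle2 : ∀ b ∈ G, h (G.erase b) ≤ 1 := by
    intro b hb
    have := hh.down (G.erase b) (erase_subset _ _) b hb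
    rw [insert_erase hb, hG] at this
    linarith
  have hother : ∀ a ∈ G, ∃ b ∈ G, b ≠ a := by
    intro a _
    by_cases h3 : a = a0
    · exact ⟨b0, hb0, fun h4 => hab0 (h3.symm.trans h4.symm)⟩
    · exact ⟨a0, ha0, fun h4 => h3 h4.symm⟩
  have hM : Cross G (fun X => X ⊆ G ∧ X ≠ ∅ ∧ X ≠ G ∧ h X = 1) := by
    have hone : ∀ X Y, (X ⊆ G ∧ X ≠ ∅ ∧ X ≠ G ∧ h X = 1) →
        (Y ⊆ G ∧ Y ≠ ∅ ∧ Y ≠ G ∧ h Y = 1) → (X ∩ Y).Nonempty →
        (∃ r ∈ G, r ∉ X ∧ r ∉ Y) → (X ∩ Y ≠ G ∧ X ∪ Y ≠ G ∧ h (X ∩ Y) = 1 ∧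
          h (X ∪ Y) = 1) := by
      intro X Y hX hY hne hr
      obtain ⟨r, hr, hrX, hrY⟩ := hr
      have b1 : X ∩ Y ≠ G := fun e => hrX (mem_inter.1 (e ▸ hr : r ∈ X ∩ Y)).1
      have b2 : X ∪ Y ≠ G := fun e => by
        have : r ∈ X ∪ Y := e ▸ hr
        rcases mem_union.1 this with h | h
        · exact hrX h
        · exact hrY h
      have b3 : X ∪ Y ≠ ∅ := by
        obtain ⟨s, hs⟩ := hne
        exact ne_empty_of_mem (mem_union_left _ (mem_inter.1 hs).1)
      have b4 := hirr (X ∩ Y) (inter_subset_left.trans hX.1) (nonempty_iff_ne_empty.1 hne) b1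
      have b5 := hirr (X ∪ Y) (union_subset hX.1 hY.1) b3 b2
      have b6 := hh.sub X hX.1 Y hY.1
      rw [hX.2.2.2, hY.2.2.2] at b6
      exact ⟨b1, b2, by omega, by omega⟩
    refine ⟨fun X hX => hX.1, ?_, ?_, ?_, ?_, ?_⟩
    · intro X Y hX hY hne hr
      obtain ⟨b1, b2, b3, b4⟩ := hone X Y hX hY hne hr
      exact ⟨inter_subset_left.trans hX.1, nonempty_iff_ne_empty.1 hne, b1, b3⟩
    · intro X Y hX hY hne hr
      obtain ⟨b1, b2, b3, b4⟩ := hone X Y hX hY hne hr
      refine ⟨union_subset hX.1 hY.1, ?_, b2, b4⟩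
      obtain ⟨s, hs⟩ := hne
      exact ne_empty_of_mem (mem_union_left _ (mem_inter.1 hs).1)
    · intro a ha
      obtain ⟨b, hb, hba⟩ := hother a ha
      have c1 : ({a} : Finset α) ≠ G := fun e => hba (mem_singleton.1 (e ▸ hb : b ∈ {a}))
      have c2 := hirr {a} (singleton_subset_iff.2 ha) (singleton_ne_empty a) c1
      exact ⟨singleton_subset_iff.2 ha, singleton_ne_empty a, c1, by
        have := hle1 a ha; omega⟩
    · intro a ha
      obtain ⟨b, hb, hba⟩ := hother a ha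
      have c1 : G.erase a ≠ G := fun e => (mem_erase.1 (e.symm ▸ ha : a ∈ G.erase a)).1 rfl
      have c0 : G.erase a ≠ ∅ := ne_empty_of_mem (mem_erase.2 ⟨hba, hb⟩)
      have c2 := hirr (G.erase a) (erase_subset _ _) c0 c1
      exact ⟨erase_subset _ _, c0, c1, by have := hle2 a ha; omega⟩
    · intro p hp p' hp' q hq q' hq' a1 a2 a3 a4 a5 a6
      obtain ⟨A, hA, hA'⟩ := hfour p hp p' hp' q hq q' hq' a1 a2 a3 a4 a5 a6
      have hA0 : A ≠ ∅ := by
        rintro rfl
        have := hA' (by simp [hh.empty])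
        simp [hh.empty] at this
      have hA1 : A ≠ G := by
        rintro rfl
        have e1 : ∑ e ∈ A, vec p p' q q' e = 0 := by
          rw [sum_vec, if_pos hp, if_pos hp', if_pos hq, if_pos hq']; norm_num
        have := hA' (by rw [e1, hG])
        rw [e1, hG] at this
        simp at this
      have hA2 := hirr A hA hA0 hA1
      rw [sum_vec] at hA'
      refine ⟨A, ⟨hA, hA0, hA1, ?_⟩, ?_⟩
      · by_contra hne
        have hA3 : 2 ≤ h A := by omega
        have := hA' (by split_ifs <;> omega)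
        revert this
        split_ifs <;> omega
      · by_cases m1 : p ∈ A <;> by_cases m2 : p' ∈ A <;> by_cases m3 : q ∈ A <;>
          by_cases m4 : q' ∈ A <;> simp only [m1, m2, m3, m4, if_true, if_false] at hA' ⊢ <;>
          first
          | (simp; done)
          | (exfalso; have := hA' (by omega); omega)
  obtain ⟨a, ha, b, hb, hab, hsep⟩ := exists_pair hM ha0 hb0 hab0
  refine ⟨root a b, ?_, ?_, ?_, ?_⟩
  · intro A hA
    rw [sum_root]
    by_cases hA0 : A = ∅
    · subst hA0; simp [hh.empty]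
    by_cases hA1 : A = G
    · subst hA1; simp [ha, hb, hG]
    have := hirr A hA hA0 hA1
    split_ifs <;> omega
  · intro A hA
    rw [sum_root]
    by_cases hA0 : A = ∅
    · subst hA0; simp [hh.empty]
    by_cases hA1 : A = G
    · subst hA1; simp [ha, hb, hG]
    have := hirr A hA hA0 hA1
    split_ifs <;> omega
  · rw [sum_root]; simp [ha, hb, hG]
  · intro i hi j hj hij
    have ta : ∑ e ∈ ({a} : Finset α), root a b e = h {a} := by
      rw [sum_root, (hM.single a ha).2.2.2]; simp [Ne.symm hab]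
    have tb : ∑ e ∈ G.erase b, root a b e = h (G.erase b) := by
      rw [sum_root, (hM.cosingle b hb).2.2.2]; simp [hab, ha]
    by_cases h3 : i = a
    · exact ⟨{a}, singleton_subset_iff.2 ha, ta, Or.inl ⟨mem_singleton.2 h3,
        fun h4 => hij (h3.trans (mem_singleton.1 h4).symm)⟩⟩
    by_cases h4 : j = a
    · exact ⟨{a}, singleton_subset_iff.2 ha, ta, Or.inr ⟨mem_singleton.2 h4,
        fun h5 => h3 (mem_singleton.1 h5)⟩⟩
    by_cases h5 : i = b
    · exact ⟨G.erase b, erase_subset _ _, tb, Or.inr ⟨mem_erase.2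
        ⟨fun h6 => hij (h5.trans h6.symm), hj⟩, fun h6 => (mem_erase.1 h6).1 h5⟩⟩
    by_cases h6 : j = b
    · exact ⟨G.erase b, erase_subset _ _, tb, Or.inl ⟨mem_erase.2 ⟨h5, hi⟩,
        fun h7 => (mem_erase.1 h7).1 h6⟩⟩
    obtain ⟨X, hX, hXa, hXb, hX'⟩ := hsep i hi j hj hij h3 h5 h4 h6
    refine ⟨X, hX.1, ?_, hX'⟩
    rw [sum_root, if_pos hXa, if_neg hXb, hX.2.2.2]
    norm_num

theorem vec_val {p p' q q' : α} (hpp : p ≠ p') (hqq : q ≠ q') (hpq : p ≠ q) (hpq' : p ≠ q')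
    (hp'q : p' ≠ q) (hp'q' : p' ≠ q') (e : α) :
    vec p p' q q' e = 1 ∨ vec p p' q q' e = -1 ∨
      (vec p p' q q' e = 0 ∧ e ≠ p ∧ e ≠ p' ∧ e ≠ q ∧ e ≠ q') := by
  unfold vec
  by_cases h1 : e = p
  · subst h1; simp [hpp, hpq, hpq']
  by_cases h2 : e = p'
  · subst h2; simp [h1, hp'q, hp'q']
  by_cases h3 : e = q
  · subst h3; simp [h1, h2, hqq]
  by_cases h4 : e = q'
  · subst h4; simp [h1, h2, h3]
  simp [h1, h2, h3, h4]

/-- irreducible functions on at most six elements -/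
theorem base_six (hh : Sub G h) (hG : h G = 0) (hirr : ∀ A ⊆ G, A ≠ ∅ → A ≠ G → 1 ≤ h A)
    (hc : G.card ≤ 6) : ∃ x, Sol G h x := by
  by_cases hcard : G.card ≤ 1
  · refine ⟨fun _ => 0, ?_, ?_, by simp [hG], ?_⟩
    · intro A hA; simpa using hh.nonneg A hA
    · intro A hA; simpa using hh.nonneg A hA
    · intro i hi j hj hij
      exact absurd (card_le_one.1 hcard i hi j hj) hij
  by_cases hfour : ∃ p ∈ G, ∃ p' ∈ G, ∃ q ∈ G, ∃ q' ∈ G, p ≠ p' ∧ q ≠ q' ∧ p ≠ q ∧ p ≠ q' ∧
        p' ≠ q ∧ p' ≠ q' ∧ ∀ A ⊆ G, ∑ e ∈ A, vec p p' q q' e ≤ h A ∧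
          -∑ e ∈ A, vec p p' q q' e ≤ h A
  swap
  · exact sol_of_no_four hh hG hirr hcard hfour
  obtain ⟨p, hp, p', hp', q, hq, q', hq', a1, a2, a3, a4, a5, a6, h3⟩ := hfour
  have hval := vec_val a1 a2 a3 a4 a5 a6
  have hval1 : ∀ e ∈ G, vec p p' q q' e = 1 ∨ vec p p' q q' e = -1 ∨ vec p p' q q' e = 0 := by
    intro e _
    rcases hval e with h4 | h4 | h4
    · exact Or.inl h4
    · exact Or.inr (Or.inl h4)
    · exact Or.inr (Or.inr h4.1)
  by_cases hs1 : ∀ i ∈ G, ∀ j ∈ G, i ≠ j → vec p p' q q' i = 0 → vec p p' q q' j = 0 →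
      ∃ X ⊆ G, ∑ e ∈ X, vec p p' q q' e = h X ∧ ((i ∈ X ∧ j ∉ X) ∨ (j ∈ X ∧ i ∉ X))
  · exact ⟨_, sol_of hh hG (fun A hA => (h3 A hA).1) (fun A hA => (h3 A hA).2) hval1 hs1⟩
  by_cases hs2 : ∀ i ∈ G, ∀ j ∈ G, i ≠ j → -vec p p' q q' i = 0 → -vec p p' q q' j = 0 →
      ∃ X ⊆ G, ∑ e ∈ X, -vec p p' q q' e = h X ∧ ((i ∈ X ∧ j ∉ X) ∨ (j ∈ X ∧ i ∉ X))
  · refine ⟨fun e => -vec p p' q q' e, sol_of hh hG ?_ ?_ ?_ hs2⟩
    · intro A hA
      rw [sum_neg_distrib]
      exact (h3 A hA).2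
    · intro A hA
      rw [sum_neg_distrib, neg_neg]
      exact (h3 A hA).1
    · intro e he
      rcases hval1 e he with h4 | h4 | h4
      · right; left; rw [h4]
      · left; rw [h4]; norm_num
      · right; right; rw [h4]; norm_num
  push Not at hs1 hs2
  obtain ⟨i, hi, j, hj, hij, hi0, hj0, hsep1⟩ := hs1
  obtain ⟨i', hi', j', hj', hij', hi0', hj0', hsep2⟩ := hs2
  -- at most two zeros
  have hzero : ∀ e ∈ G, vec p p' q q' e = 0 → e = i ∨ e = j := by
    intro e he h4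
    by_contra hne
    push Not at hne
    have hz : ∀ e, vec p p' q q' e = 0 → e ≠ p ∧ e ≠ p' ∧ e ≠ q ∧ e ≠ q' := by
      intro e h5
      rcases hval e with h6 | h6 | h6
      · omega
      · omega
      · exact h6.2
    have hze := hz e h4
    have hzi := hz i hi0
    have hzj := hz j hj0
    have hsub : ({p, p', q, q', i, j, e} : Finset α) ⊆ G := by
      intro y hy
      simp only [mem_insert, mem_singleton] at hy
      rcases hy with rfl | rfl | rfl | rfl | rfl | rfl | rfl <;> assumption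
    have hcd : ({p, p', q, q', i, j, e} : Finset α).card = 7 := by
      rw [card_insert_of_notMem, card_insert_of_notMem, card_insert_of_notMem,
        card_insert_of_notMem, card_insert_of_notMem, card_insert_of_notMem, card_singleton]
      · simp only [mem_singleton]; exact fun h5 => hne.2 h5.symm
      · simp only [mem_insert, mem_singleton]; push Not
        exact ⟨hij, fun h5 => hne.1 h5.symm⟩
      · simp only [mem_insert, mem_singleton]; push Not
        exact ⟨fun h5 => hzi.2.2.2 h5.symm, fun h5 => hzj.2.2.2 h5.symm,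
          fun h5 => hze.2.2.2 h5.symm⟩
      · simp only [mem_insert, mem_singleton]; push Not
        exact ⟨a2, fun h5 => hzi.2.2.1 h5.symm, fun h5 => hzj.2.2.1 h5.symm,
          fun h5 => hze.2.2.1 h5.symm⟩
      · simp only [mem_insert, mem_singleton]; push Not
        exact ⟨a5, a6, fun h5 => hzi.2.1 h5.symm, fun h5 => hzj.2.1 h5.symm,
          fun h5 => hze.2.1 h5.symm⟩
      · simp only [mem_insert, mem_singleton]; push Not
        exact ⟨a1, a3, a4, fun h5 => hzi.1 h5.symm, fun h5 => hzj.1 h5.symm,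
          fun h5 => hze.1 h5.symm⟩
    have := card_le_card hsub
    omega
  have hij2 : (i' = i ∧ j' = j) ∨ (i' = j ∧ j' = i) := by
    rcases hzero i' hi' (by omega) with h4 | h4 <;> rcases hzero j' hj' (by omega) with h5 | h5
    · exact absurd (h4.trans h5.symm) hij'
    · exact Or.inl ⟨h4, h5⟩
    · exact Or.inr ⟨h4, h5⟩
    · exact absurd (h4.trans h5.symm) hij'
  have hsep3 : ∀ X ⊆ G, -∑ e ∈ X, vec p p' q q' e = h X → (i ∈ X → j ∈ X) ∧ (j ∈ X → i ∈ X) := by
    intro X hX h4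
    have h5 := hsep2 X hX (by rw [sum_neg_distrib]; exact h4)
    rcases hij2 with ⟨rfl, rfl⟩ | ⟨rfl, rfl⟩
    · exact h5
    · exact ⟨h5.2, h5.1⟩
  refine ⟨fun e => vec p p' q q' e + root i j e, sol_of hh hG ?_ ?_ ?_ ?_⟩
  · intro A hA
    rw [sum_add_distrib, sum_root]
    have h4 := (h3 A hA).1
    by_cases h5 : i ∈ A
    · by_cases h6 : j ∈ A
      · rw [if_pos h5, if_pos h6]; omega
      · rw [if_pos h5, if_neg h6]
        have h7 : ∑ e ∈ A, vec p p' q q' e ≠ h A := fun h8 => h6 ((hsep1 A hA h8).1 h5)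
        omega
    · rw [if_neg h5]
      split_ifs <;> omega
  · intro A hA
    rw [sum_add_distrib, sum_root]
    have h4 := (h3 A hA).2
    by_cases h6 : j ∈ A
    · by_cases h5 : i ∈ A
      · rw [if_pos h5, if_pos h6]; omega
      · rw [if_neg h5, if_pos h6]
        have h7 : -∑ e ∈ A, vec p p' q q' e ≠ h A := fun h8 => h5 ((hsep3 A hA h8).2 h6)
        omega
    · rw [if_neg h6]
      split_ifs <;> omega
  · intro e he
    show vec p p' q q' e + root i j e = 1 ∨ vec p p' q q' e + root i j e = -1 ∨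
      vec p p' q q' e + root i j e = 0
    by_cases h5 : e = i
    · subst h5
      left
      unfold root
      rw [hi0, if_pos rfl, if_neg hij]; norm_num
    by_cases h6 : e = j
    · subst h6
      right; left
      unfold root
      rw [hj0, if_neg h5, if_pos rfl]; norm_num
    have h7 : root i j e = 0 := by
      unfold root
      rw [if_neg h5, if_neg h6]; norm_num
    rw [h7, add_zero]
    exact hval1 e he
  · intro k hk l hl hkl hk0 hl0
    exfalso
    have hk0' : vec p p' q q' k + root i j k = 0 := hk0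
    by_cases h5 : k = i
    · subst h5
      unfold root at hk0'
      rw [hi0, if_pos rfl, if_neg hij] at hk0'
      omega
    by_cases h6 : k = j
    · subst h6
      unfold root at hk0'
      rw [hj0, if_neg h5, if_pos rfl] at hk0'
      omega
    have h7 : root i j k = 0 := by
      unfold root
      rw [if_neg h5, if_neg h6]; norm_num
    rw [h7, add_zero] at hk0'
    rcases hzero k hk hk0' with h8 | h8
    · exact h5 h8
    · exact h6 h8

end Pool.Agent.P901b45d
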