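import Pool.Agent.Lib.P901b45d.Seven
import Pool.Agent.Lib.P901b45d.Almost

/-!
Removal of a comparable pair, for Frank's question on complementary vertices of integer
2-polymatroids (MP_901b45_co).
-/

set_option autoImplicit false

namespace Pool.Agent.P901b45d

open Finset Pool.Agent.P901b45e

variable {α : Type*} [DecidableEq α] {G : Finset α} {h : Finset α → ℤ}

/-- `b` dominates `a`: exchanging `a` by `b` never lowers `h` -/
def Dom (G : Finset α) (h : Finset α → ℤ) (a b : α) : Prop :=
  ∀ A ⊆ G, a ∉ A → b ∉ A → h (insert a A) ≤ h (insert b A)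

/-- removal of a comparable pair keeps the hypotheses -/
theorem reduce_sub (hh : Sub G h) (hG : h G = 0) (hirr : ∀ A ⊆ G, A ≠ ∅ → A ≠ G → 1 ≤ h A)
    {a b : α} (ha : a ∈ G) (hb : b ∈ G) (hab : a ≠ b) :
    Sub ((G.erase a).erase b) (fun A => h (insert a A) - 1) ∧ h {a} = 1 ∧
      h (G.erase b) = 1 ∧ h (insert a ((G.erase a).erase b)) - 1 = 0 := by
  have hsub : ∀ {A}, A ⊆ (G.erase a).erase b → insert a A ⊆ G := by
    intro A hA
    refine insert_subset ha (hA.trans ((erase_subset _ _).trans (erase_subset _ _)))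
  have hbA : ∀ {A}, A ⊆ (G.erase a).erase b → b ∉ insert a A := by
    intro A hA h1
    rcases mem_insert.1 h1 with h2 | h2
    · exact hab h2.symm
    · exact (mem_erase.1 (hA h2)).1 rfl
  have hna : h {a} = 1 := by
    have h1 := hh.up ∅ (empty_subset _) a ha
    rw [hh.empty] at h1
    have h2 : h {a} ≤ 1 := by simpa using h1
    have h3 := hirr {a} (singleton_subset_iff.2 ha) (singleton_ne_empty a)
      (fun e => hab (mem_singleton.1 (e ▸ hb : b ∈ ({a} : Finset α))).symm)
    omega
  have hnb : h (G.erase b) = 1 := by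
    have h1 := hh.down (G.erase b) (erase_subset _ _) b hb
    rw [insert_erase hb, hG] at h1
    have h3 := hirr (G.erase b) (erase_subset _ _) (ne_empty_of_mem (mem_erase.2 ⟨hab, ha⟩))
      (fun e => (mem_erase.1 (e.symm ▸ hb : b ∈ G.erase b)).1 rfl)
    omega
  have hins : insert a ((G.erase a).erase b) = G.erase b := by
    ext y
    simp only [mem_insert, mem_erase]
    constructor
    · rintro (rfl | ⟨h1, h2, h3⟩)
      · exact ⟨hab, ha⟩
      · exact ⟨h1, h3⟩
    · rintro ⟨h1, h2⟩
      by_cases h3 : y = a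
      · exact Or.inl h3
      · exact Or.inr ⟨h1, h3, h2⟩
  refine ⟨⟨?_, ?_, ?_, ?_, ?_⟩, hna, hnb, by rw [hins, hnb]; norm_num⟩
  · show h (insert a ∅) - 1 = 0
    have h1 : insert a (∅ : Finset α) = {a} := rfl
    rw [h1, hna]; norm_num
  · intro A hA
    have h1 := hirr (insert a A) (hsub hA) (ne_empty_of_mem (mem_insert_self a A))
      (fun e => hbA hA (e.symm ▸ hb))
    show 0 ≤ h (insert a A) - 1
    omega
  · intro A hA B hB
    have h1 := hh.sub _ (hsub hA) _ (hsub hB)
    have e1 : insert a A ∪ insert a B = insert a (A ∪ B) := by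
      ext y; simp only [mem_union, mem_insert]; tauto
    have e2 : insert a A ∩ insert a B = insert a (A ∩ B) := by
      ext y; simp only [mem_inter, mem_insert]; tauto
    rw [e1, e2] at h1
    show h (insert a (A ∪ B)) - 1 + (h (insert a (A ∩ B)) - 1) ≤ h (insert a A) - 1 +
      (h (insert a B) - 1)
    omega
  · intro A hA e he
    have h1 := hh.up _ (hsub hA) e (mem_erase.1 (mem_erase.1 he).2).2
    rw [Finset.insert_comm] at h1
    show h (insert a (insert e A)) - 1 ≤ h (insert a A) - 1 + 1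
    omega
  · intro A hA e he
    have h1 := hh.down _ (hsub hA) e (mem_erase.1 (mem_erase.1 he).2).2
    rw [Finset.insert_comm] at h1
    show h (insert a A) - 1 ≤ h (insert a (insert e A)) - 1 + 1
    omega

/-- a solution for the reduced function gives one for `h` -/
theorem reduce_sol (hh : Sub G h) (hG : h G = 0) (hirr : ∀ A ⊆ G, A ≠ ∅ → A ≠ G → 1 ≤ h A)
    {a b : α} (ha : a ∈ G) (hb : b ∈ G) (hab : a ≠ b) (hdom : Dom G h a b) {z : α → ℤ}
    (hz : Sol ((G.erase a).erase b) (fun A => h (insert a A) - 1) z) :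
    Sol G h (fun e => if e = a then 1 else if e = b then -1 else z e) := by
  obtain ⟨-, hna, hnb, htot⟩ := reduce_sub hh hG hirr ha hb hab
  let x : α → ℤ := fun e => if e = a then 1 else if e = b then -1 else z e
  have hxa : x a = 1 := by simp [x]
  have hxb : x b = -1 := by simp [x, hab.symm]
  have hxz : ∀ A, a ∉ A → b ∉ A → ∑ e ∈ A, x e = ∑ e ∈ A, z e := by
    intro A h1 h2
    refine sum_congr rfl fun e he => ?_
    have h3 : e ≠ a := fun h4 => h1 (h4 ▸ he)
    have h4 : e ≠ b := fun h5 => h2 (h5 ▸ he)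
    simp [x, h3, h4]
  have hsum : ∀ A : Finset α, ∑ e ∈ A, x e = ∑ e ∈ (A.erase a).erase b, z e +
      (if a ∈ A then 1 else 0) - (if b ∈ A then 1 else 0) := by
    intro A
    have h1 := hxz ((A.erase a).erase b)
      (fun h2 => (mem_erase.1 (mem_erase.1 h2).2).1 rfl) (fun h2 => (mem_erase.1 h2).1 rfl)
    have h2 : ∑ e ∈ A.erase a, x e = ∑ e ∈ (A.erase a).erase b, x e -
        (if b ∈ A then 1 else 0) := by
      by_cases h3 : b ∈ A
      · have h4 := Finset.add_sum_erase (A.erase a) x (mem_erase.2 ⟨hab.symm, h3⟩)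
        rw [if_pos h3]
        rw [hxb] at h4
        omega
      · rw [if_neg h3, erase_eq_of_notMem (fun h4 => h3 (mem_erase.1 h4).2)]
        omega
    have h3 : ∑ e ∈ A, x e = ∑ e ∈ A.erase a, x e + (if a ∈ A then 1 else 0) := by
      by_cases h3 : a ∈ A
      · have h4 := Finset.add_sum_erase A x h3
        rw [if_pos h3]
        rw [hxa] at h4
        omega
      · rw [if_neg h3, erase_eq_of_notMem h3]
        omega
    rw [h3, h2, h1]
    ring
  have hr : ∀ {A}, A ⊆ G → (A.erase a).erase b ⊆ (G.erase a).erase b := fun {A} hA =>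
    erase_subset_erase _ (erase_subset_erase _ hA)
  have hG' : (G.erase a).erase b ⊆ G := (erase_subset _ _).trans (erase_subset _ _)
  -- the bounds that both signs need
  have hkey : ∀ A ⊆ G, ∀ s : ℤ, s ≤ h (insert a ((A.erase a).erase b)) - 1 →
      (a ∈ A → b ∈ A → s ≤ h A) ∧ (a ∈ A → b ∉ A → s + 1 ≤ h A) ∧
      (a ∉ A → b ∈ A → s - 1 ≤ h A ∧ s + 1 ≤ h A) ∧ (a ∉ A → b ∉ A → s ≤ h A) := by
    intro A hA s hs
    have hA' : (A.erase a).erase b ⊆ G := (hr hA).trans hG'
    refine ⟨?_, ?_, ?_, ?_⟩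
    · intro h1 h2
      have h3 := hh.down (insert a ((A.erase a).erase b)) (insert_subset ha hA') b hb
      have h4 : insert b (insert a ((A.erase a).erase b)) = A := by
        ext y
        simp only [mem_insert, mem_erase]
        constructor
        · rintro (rfl | rfl | h5)
          · exact h2
          · exact h1
          · exact h5.2.2
        · intro h5
          by_cases h6 : y = b
          · exact Or.inl h6
          · by_cases h7 : y = a
            · exact Or.inr (Or.inl h7)
            · exact Or.inr (Or.inr ⟨h6, h7, h5⟩)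
      rw [h4] at h3
      omega
    · intro h1 h2
      have h4 : insert a ((A.erase a).erase b) = A := by
        rw [erase_eq_of_notMem (fun h5 => h2 (mem_erase.1 h5).2), insert_erase h1]
      rw [h4] at hs
      omega
    · intro h1 h2
      have h4 : insert b ((A.erase a).erase b) = A := by
        rw [erase_eq_of_notMem h1, insert_erase h2]
      have h5 := hdom _ hA' (fun h6 => (mem_erase.1 (mem_erase.1 h6).2).1 rfl)
        (fun h6 => (mem_erase.1 h6).1 rfl)
      rw [h4] at h5
      constructor <;> omega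
    · intro h1 h2
      have h4 : (A.erase a).erase b = A := by
        rw [erase_eq_of_notMem h1, erase_eq_of_notMem h2]
      rw [h4] at hs
      have h3 := hh.up A hA a ha
      omega
  refine ⟨?_, ?_, ?_, ?_⟩
  · intro A hA
    show ∑ e ∈ A, x e ≤ h A
    obtain ⟨k1, k2, k3, k4⟩ := hkey A hA _ (hz.le _ (hr hA))
    rw [hsum]
    by_cases h1 : a ∈ A <;> by_cases h2 : b ∈ A
    · have := k1 h1 h2; rw [if_pos h1, if_pos h2]; omega
    · have := k2 h1 h2; rw [if_pos h1, if_neg h2]; omega
    · have := k3 h1 h2; rw [if_neg h1, if_pos h2]; omega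
    · have := k4 h1 h2; rw [if_neg h1, if_neg h2]; omega
  · intro A hA
    show -∑ e ∈ A, x e ≤ h A
    obtain ⟨k1, k2, k3, k4⟩ := hkey A hA _ (hz.neg_le _ (hr hA))
    rw [hsum]
    by_cases h1 : a ∈ A <;> by_cases h2 : b ∈ A
    · have := k1 h1 h2; rw [if_pos h1, if_pos h2]; omega
    · have := k2 h1 h2; rw [if_pos h1, if_neg h2]; omega
    · have := k3 h1 h2; rw [if_neg h1, if_pos h2]; omega
    · have := k4 h1 h2; rw [if_neg h1, if_neg h2]; omega
  · show ∑ e ∈ G, x e = h G
    rw [hsum, if_pos ha, if_pos hb, hG]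
    have h1 : ∑ e ∈ (G.erase a).erase b, z e = h (insert a ((G.erase a).erase b)) - 1 := hz.tight
    rw [h1, htot]
    norm_num
  · intro i hi j hj hij
    have ta : ∑ e ∈ ({a} : Finset α), x e = h {a} := by rw [sum_singleton, hxa, hna]
    have tG : ∑ e ∈ G, x e = 0 := by
      rw [hsum, if_pos ha, if_pos hb]
      have h1 : ∑ e ∈ (G.erase a).erase b, z e = h (insert a ((G.erase a).erase b)) - 1 :=
        hz.tight
      rw [h1, htot]
      norm_num
    have tb : ∑ e ∈ G.erase b, x e = h (G.erase b) := by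
      have h1 := Finset.add_sum_erase G x hb
      rw [hxb, tG] at h1
      rw [hnb]
      omega
    show ∃ X ⊆ G, ∑ e ∈ X, x e = h X ∧ ((i ∈ X ∧ j ∉ X) ∨ (j ∈ X ∧ i ∉ X))
    by_cases h3 : i = a
    · exact ⟨{a}, singleton_subset_iff.2 ha, ta, Or.inl ⟨mem_singleton.2 h3,
        fun h4 => hij (h3.trans (mem_singleton.1 h4).symm)⟩⟩
    by_cases h4 : j = a
    · exact ⟨{a}, singleton_subset_iff.2 ha, ta, Or.inr ⟨mem_singleton.2 h4,
        fun h5 => h3 (mem_singleton.1 h5)⟩⟩
    by_cases h5 : i = b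
    · exact ⟨G.erase b, erase_subset _ _, tb, Or.inr ⟨mem_erase.2
        ⟨fun h6 => hij (h5.trans h6.symm), hj⟩, fun h6 => (mem_erase.1 h6).1 h5⟩⟩
    by_cases h6 : j = b
    · exact ⟨G.erase b, erase_subset _ _, tb, Or.inl ⟨mem_erase.2 ⟨h5, hi⟩,
        fun h7 => (mem_erase.1 h7).1 h6⟩⟩
    obtain ⟨X, hX, hXt, hXs⟩ := hz.sep i (mem_erase.2 ⟨h5, mem_erase.2 ⟨h3, hi⟩⟩) j
      (mem_erase.2 ⟨h6, mem_erase.2 ⟨h4, hj⟩⟩) hij
    have haX : a ∉ X := fun h7 => (mem_erase.1 (mem_erase.1 (hX h7)).2).1 rfl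
    have hbX : b ∉ X := fun h7 => (mem_erase.1 (hX h7)).1 rfl
    refine ⟨insert a X, insert_subset ha (hX.trans hG'), ?_, ?_⟩
    · rw [sum_insert haX, hxa, hxz X haX hbX, hXt]
      ring
    · simp only [mem_insert, h3, h4, false_or]
      exact hXs

theorem Almost.congr {I : Finset α} {g g' : Finset α → ℤ} (hg : ∀ S ⊆ I, g S = g' S)
    (h : Almost I g) : Almost I g' := by
  obtain ⟨t, ht, h1, h2⟩ := h
  refine ⟨t, ht, fun S hS => by rw [← hg S hS]; exact h1 S hS, ?_⟩
  rcases h2 with h2 | h2
  · exact Or.inl h2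
  · exact Or.inr fun S hS => by rw [← hg S hS]; exact h2 S hS

/-- all minors on at least eight elements without comparable elements are almost uniform -/
def Comp (G : Finset α) (h : Finset α → ℤ) : Prop :=
  ∀ I ⊆ G, 8 ≤ I.card → ∀ A ⊆ G, Disjoint A I →
    (∀ S ⊆ I, h A ≤ h (A ∪ S)) → h (A ∪ I) = h A →
    (∀ a ∈ I, ∀ b ∈ I, a ≠ b → ¬ Dom I (fun S => h (A ∪ S)) a b) →
    Almost I (fun S => h (A ∪ S) - h A + S.card)

theorem dominance {α : Type} [DecidableEq α] (n : ℕ) : ∀ (G : Finset α) (h : Finset α → ℤ),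
    G.card = n → Sub G h → h G = 0 → Comp G h → ∃ x, Sol G h x := by
  induction n using Nat.strong_induction_on with
  | _ n ih =>
  intro G h hn hh hG hcomp
  by_cases hred : ∃ S ⊆ G, S ≠ ∅ ∧ S ≠ G ∧ h S = 0
  · obtain ⟨S, hS, hS1, hS2, hS0⟩ := hred
    have hSG : S ⊂ G := lt_of_le_of_ne hS hS2
    obtain ⟨x, hx⟩ := ih S.card (hn ▸ card_lt_card hSG) S h rfl (hh.restrict hS) hS0
      (by
        intro I hI hI8 A hA hd h1 h2 hinc
        exact hcomp I (hI.trans hS) hI8 A (hA.trans hS) hd h1 h2 hinc)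
    have hlt : (G \ S).card < G.card := by
      apply card_lt_card
      refine lt_of_le_of_ne sdiff_subset (fun e => ?_)
      obtain ⟨s, hs⟩ := nonempty_iff_ne_empty.2 hS1
      have := hS hs
      rw [← e] at this
      exact (mem_sdiff.1 this).2 hs
    obtain ⟨y, hy⟩ := ih (G \ S).card (hn ▸ hlt) (G \ S) (fun T => h (S ∪ T)) rfl
      (hh.contract hS hS0) (by
        show h (S ∪ (G \ S)) = 0
        rw [union_sdiff_of_subset hS, hG])
      (by
        intro I hI hI8 A hA hdis h1 h2 hinc
        have h1' : ∀ U ⊆ I, h (S ∪ A) ≤ h (S ∪ (A ∪ U)) := h1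
        have h2' : h (S ∪ (A ∪ I)) = h (S ∪ A) := h2
        have h6 := hcomp I (hI.trans sdiff_subset) hI8 (S ∪ A)
          (union_subset hS (hA.trans sdiff_subset))
          (by
            rw [disjoint_union_left]
            refine ⟨?_, hdis⟩
            rw [disjoint_left]
            intro y hy hy'
            exact (mem_sdiff.1 (hI hy')).2 hy)
          (fun U hU => by rw [union_assoc]; exact h1' U hU)
          (by rw [union_assoc]; exact h2')
          (fun a ha b hb hab hd => hinc a ha b hb hab (fun B hB h3 h4 => by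
            have h5 : h (S ∪ A ∪ insert a B) ≤ h (S ∪ A ∪ insert b B) := hd B hB h3 h4
            show h (S ∪ (A ∪ insert a B)) ≤ h (S ∪ (A ∪ insert b B))
            rwa [union_assoc, union_assoc] at h5))
        refine h6.congr fun U _ => ?_
        show h (S ∪ A ∪ U) - h (S ∪ A) + (U.card : ℤ) = h (S ∪ (A ∪ U)) - h (S ∪ A) + (U.card : ℤ)
        rw [union_assoc])
    exact ⟨_, glue hh hS hS0 hx hy⟩
  push Not at hred
  have hirr : ∀ A ⊆ G, A ≠ ∅ → A ≠ G → 1 ≤ h A := by
    intro A hA h3 h4
    have h5 := hh.nonneg A hA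
    have h6 := hred A hA (nonempty_iff_ne_empty.2 h3) h4
    omega
  by_cases hcard : G.card ≤ 7
  · exact base_seven hh hG hirr hcard
  by_cases hpair : ∃ a ∈ G, ∃ b ∈ G, a ≠ b ∧ Dom G h a b
  swap
  · push Not at hpair
    refine sol_of_almost hh hG ?_
    have h6 := hcomp G (Subset.refl _) (by omega) ∅
      (empty_subset _) (disjoint_empty_left _)
      (fun S hS => by rw [hh.empty]; exact hh.nonneg _ (union_subset (empty_subset _) hS))
      (by rw [empty_union, hG, hh.empty])
      (fun a ha b hb hab hd => hpair a ha b hb hab (fun B hB h3 h4 => by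
        have h5 : h (∅ ∪ insert a B) ≤ h (∅ ∪ insert b B) := hd B hB h3 h4
        rwa [empty_union, empty_union] at h5))
    refine h6.congr fun S _ => ?_
    show h (∅ ∪ S) - h ∅ + (S.card : ℤ) = h S + S.card
    rw [empty_union, hh.empty, sub_zero]
  obtain ⟨a, ha, b, hb, hab, hd⟩ := hpair
  obtain ⟨hsub', hna, hnb, htot⟩ := reduce_sub hh hG hirr ha hb hab
  have hG' : (G.erase a).erase b ⊆ G := (erase_subset _ _).trans (erase_subset _ _)
  have hlt : ((G.erase a).erase b).card < G.card := by
    refine lt_of_le_of_lt (card_le_card (erase_subset _ _)) ?_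
    rw [card_erase_of_mem ha]
    have := card_pos.2 ⟨a, ha⟩
    omega
  obtain ⟨z, hz⟩ := ih _ (hn ▸ hlt) ((G.erase a).erase b) (fun A => h (insert a A) - 1) rfl
    hsub' htot (by
      intro I hI hI8 A hA hdis h1 h2 hinc
      have h1' : ∀ U ⊆ I, h (insert a A) - 1 ≤ h (insert a (A ∪ U)) - 1 := h1
      have h2' : h (insert a (A ∪ I)) - 1 = h (insert a A) - 1 := h2
      have h6 := hcomp I (hI.trans hG') hI8 (insert a A) (insert_subset ha (hA.trans hG'))
        (by
          rw [disjoint_insert_left]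
          exact ⟨fun h3 => (mem_erase.1 (mem_erase.1 (hI h3)).2).1 rfl, hdis⟩)
        (fun U hU => by
          rw [insert_union]
          have := h1' U hU
          omega)
        (by rw [insert_union]; omega)
        (fun c hc d hd' hcd hdd => hinc c hc d hd' hcd (fun B hB h3 h4 => by
          have h5 : h (insert a A ∪ insert c B) ≤ h (insert a A ∪ insert d B) := hdd B hB h3 h4
          show h (insert a (A ∪ insert c B)) - 1 ≤ h (insert a (A ∪ insert d B)) - 1
          rw [insert_union, insert_union] at h5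
          omega))
      refine h6.congr fun U _ => ?_
      show h (insert a A ∪ U) - h (insert a A) + (U.card : ℤ) =
        h (insert a (A ∪ U)) - 1 - (h (insert a A) - 1) + (U.card : ℤ)
      rw [insert_union]
      ring)
  exact ⟨_, reduce_sol hh hG hirr ha hb hab hd hz⟩

end Pool.Agent.P901b45d
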