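import Pool.Agent.Lib.P901b45d.Red
import Pool.Agent.Lib.P901b45d.Dom
import Pool.Agent.Lib.P901b45e.Bridge

/-!
Frank's question for 2-polymatroids all of whose minors with eight or more pairwise incomparable
elements are almost uniform (MP_901b45_co).
-/

set_option autoImplicit false

namespace Pool.Agent.P901b45d

open Finset

/-- the truncation of `f` to rank `n` -/
def trunc {n : ℕ} (f : Finset (Fin n) → ℤ) (S : Finset (Fin n)) : ℤ := min (f S) n

/-- `a` lies below `b` in the function `q` on the subsets of `I` -/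
def Below {n : ℕ} (I : Finset (Fin n)) (q : Finset (Fin n) → ℤ) (a b : Fin n) : Prop :=
  ∀ S ⊆ I, a ∉ S → b ∉ S → q (insert a S) ≤ q (insert b S)

/-- the minor of `g` obtained by contraction of `A` -/
def minor {n : ℕ} (g : Finset (Fin n) → ℤ) (A S : Finset (Fin n)) : ℤ := g (A ∪ S) - g A

theorem final (n : ℕ) (f : Finset (Fin n) → ℤ) (h0 : f ∅ = 0) (hmono : Monotone f)
    (hsub : ∀ A B : Finset (Fin n), f (A ∪ B) + f (A ∩ B) ≤ f A + f B)
    (htwo : ∀ e : Fin n, f {e} ≤ 2) (hone : ∀ A : Finset (Fin n), (A.card : ℤ) ≤ f A)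
    (hcomp : ∀ A I : Finset (Fin n), Disjoint A I → 8 ≤ I.card →
      (∀ S ⊆ I, (S.card : ℤ) ≤ minor (trunc f) A S) →
      minor (trunc f) A I = I.card →
      (∀ a ∈ I, ∀ b ∈ I, a ≠ b → ¬ Below I (minor (trunc f) A) a b) →
      Almost I (minor (trunc f) A)) :
    ∃ v ∈ Set.extremePoints ℝ
          {x : Fin n → ℝ | (∀ i, 0 ≤ x i) ∧
            ∀ A : Finset (Fin n), ∑ i ∈ A, x i ≤ (f A : ℝ)},
        (∀ i, 0 ≤ 2 - v i) ∧
          ∀ A : Finset (Fin n), ∑ i ∈ A, (2 - v i) ≤ (f A : ℝ) := by
  have hP : Pm univ f := ⟨h0, fun A B hAB _ => hmono hAB, fun A _ B _ => hsub A B,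
    fun e _ => htwo e, fun A _ => hone A⟩
  have hcn : ((univ : Finset (Fin n)).card : ℤ) = n := by simp
  have htr : ∀ A, min (f A) ((univ : Finset (Fin n)).card : ℤ) = trunc f A := by
    intro A
    rw [hcn]
    rfl
  have hT := hP.trunc
  have hm' : Monotone (fun A : Finset (Fin n) => min (f A) ((univ : Finset (Fin n)).card : ℤ)) :=
    fun A B hAB => min_le_min_right _ (hmono hAB)
  have hS := P901b45e.sub_of (f := fun A => min (f A) ((univ : Finset (Fin n)).card : ℤ))
    hT.zero hm' (fun A B => hT.sub A (subset_univ _) B (subset_univ _))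
    (fun e => hT.two e (mem_univ e)) (fun A => hT.one A (subset_univ _))
  have huniv : min (f univ) ((univ : Finset (Fin n)).card : ℤ) = (univ : Finset (Fin n)).card :=
    min_eq_right (hone univ)
  have hG : (fun A : Finset (Fin n) => min (f A) ((univ : Finset (Fin n)).card : ℤ) - A.card)
      univ = 0 := by
    show min (f univ) ((univ : Finset (Fin n)).card : ℤ) - (univ : Finset (Fin n)).card = 0
    rw [huniv]; ring
  have hC : Comp univ
      (fun A : Finset (Fin n) => min (f A) ((univ : Finset (Fin n)).card : ℤ) - A.card) := by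
    intro I _ hI8 A _ hdis h1 h2 hinc
    have hcd : ∀ S ⊆ I, ((A ∪ S).card : ℤ) = A.card + S.card := by
      intro S hS'
      rw [card_union_of_disjoint (disjoint_of_subset_right hS' hdis)]
      push_cast
      rfl
    have h1' : ∀ S ⊆ I, min (f A) ((univ : Finset (Fin n)).card : ℤ) - (A.card : ℤ) ≤
      min (f (A ∪ S)) ((univ : Finset (Fin n)).card : ℤ) - ((A ∪ S).card : ℤ) := h1
    have h2' : min (f (A ∪ I)) ((univ : Finset (Fin n)).card : ℤ) - ((A ∪ I).card : ℤ) =
      min (f A) ((univ : Finset (Fin n)).card : ℤ) - (A.card : ℤ) := h2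
    refine Almost.congr ?_ (hcomp A I hdis hI8 ?_ ?_ ?_)
    · intro S hS'
      show trunc f (A ∪ S) - trunc f A =
        min (f (A ∪ S)) ((univ : Finset (Fin n)).card : ℤ) - ((A ∪ S).card : ℤ) -
          (min (f A) ((univ : Finset (Fin n)).card : ℤ) - (A.card : ℤ)) + (S.card : ℤ)
      rw [htr, htr, hcd S hS']
      ring
    · intro S hS'
      have h5 := h1' S hS'
      rw [htr, htr, hcd S hS'] at h5
      show (S.card : ℤ) ≤ trunc f (A ∪ S) - trunc f A
      linarith
    · have h5 := h2'
      rw [htr, htr, hcd I (Subset.refl _)] at h5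
      show trunc f (A ∪ I) - trunc f A = (I.card : ℤ)
      linarith
    · intro a ha b hb hab hbel
      refine hinc a ha b hb hab (fun S hS' h3 h4 => ?_)
      show min (f (A ∪ insert a S)) ((univ : Finset (Fin n)).card : ℤ) -
          ((A ∪ insert a S).card : ℤ) ≤
        min (f (A ∪ insert b S)) ((univ : Finset (Fin n)).card : ℤ) -
          ((A ∪ insert b S).card : ℤ)
      rw [hcd _ (insert_subset ha hS'), hcd _ (insert_subset hb hS'),
        card_insert_of_notMem h3, card_insert_of_notMem h4, htr, htr]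
      have h5 : trunc f (A ∪ insert a S) - trunc f A ≤ trunc f (A ∪ insert b S) - trunc f A :=
        hbel S hS' h3 h4
      linarith
  obtain ⟨x, hx⟩ := dominance _ univ _ rfl hS hG hC
  refine main_of_sol n f h0 hmono hsub htwo hone ⟨fun i => 1 + x i, ?_⟩
  have hv : ∀ A : Finset (Fin n), ∑ i ∈ A, (1 + x i) = (A.card : ℤ) + ∑ i ∈ A, x i := by
    intro A
    rw [sum_add_distrib]
    simp
  have hle1 : ∀ i, x i ≤ 1 ∧ -x i ≤ 1 := by
    intro i
    have h1 := hx.le {i} (subset_univ _)
    have h2 := hx.neg_le {i} (subset_univ _)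
    have h3 := hT.two i (mem_univ i)
    simp only [sum_singleton, card_singleton] at h1 h2
    push_cast at h1 h2
    constructor <;> linarith
  refine ⟨?_, ?_, ?_, ?_⟩
  · intro i _
    have := (hle1 i).2
    show 0 ≤ 1 + x i
    linarith
  · intro i _
    have := (hle1 i).1
    show 1 + x i ≤ 2
    linarith
  · intro A _
    have h1 : -∑ e ∈ A, x e ≤ min (f A) ((univ : Finset (Fin n)).card : ℤ) - A.card :=
      hx.neg_le A (subset_univ _)
    show 2 * (A.card : ℤ) - ∑ i ∈ A, (1 + x i) ≤ min (f A) ((univ : Finset (Fin n)).card : ℤ)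
    rw [hv]
    linarith
  · refine exists_ov hT.zero hT.sub ?_ ?_ ?_
    · intro A _
      have h1 : ∑ e ∈ A, x e ≤ min (f A) ((univ : Finset (Fin n)).card : ℤ) - A.card :=
        hx.le A (subset_univ _)
      rw [hv]
      linarith
    · have h1 : ∑ e ∈ univ, x e = min (f univ) ((univ : Finset (Fin n)).card : ℤ) -
        (univ : Finset (Fin n)).card := hx.tight
      rw [hv]
      linarith
    · intro i _ j _ hij
      obtain ⟨X, hX, hXt, hXs⟩ := hx.sep i (mem_univ i) j (mem_univ j) hij
      refine ⟨X, hX, ?_, hXs⟩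
      have h1 : ∑ e ∈ X, x e = min (f X) ((univ : Finset (Fin n)).card : ℤ) - X.card := hXt
      rw [hv]
      linarith

end Pool.Agent.P901b45d
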