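import Mathlib

/-!
From a good integral vector for the truncation `min (f, card)` to a vertex of the polytope of an integer
2-polymatroid (MP_901b45_co); adapted from the reduction of helper78.
-/

set_option autoImplicit false

namespace Pool.Agent.P901b45d

open Finset

variable {α : Type*} [DecidableEq α]

/-- There is a full chain of tight sets from the empty set to `A`. -/
inductive OV (f : Finset α → ℤ) (v : α → ℤ) : Finset α → Prop
  | nil : OV f v ∅
  | cons (A : Finset α) (e : α) (he : e ∉ A) (h : OV f v A)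
      (ht : ∑ i ∈ insert e A, v i = f (insert e A)) : OV f v (insert e A)

variable {f : Finset α → ℤ} {v : α → ℤ}

theorem OV.tight (h0 : f ∅ = 0) {A : Finset α} (h : OV f v A) : ∑ i ∈ A, v i = f A := by
  cases h with
  | nil => simp [h0]
  | cons A e he h ht => exact ht

/-- Greedy vectors are in the polymatroid. -/
theorem OV.le (S : Finset α) (h0 : f ∅ = 0)
    (hsub : ∀ A ⊆ S, ∀ B ⊆ S, f (A ∪ B) + f (A ∩ B) ≤ f A + f B)
    {A : Finset α} (h : OV f v A) : A ⊆ S → ∀ B ⊆ A, ∑ i ∈ B, v i ≤ f B := by
  induction h with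
  | nil => intro _ B hB; rw [subset_empty.mp hB]; simp [h0]
  | cons A e he h ht ih =>
    intro hAS B hB
    have hAS' : A ⊆ S := fun x hx => hAS (mem_insert_of_mem hx)
    by_cases heB : e ∈ B
    · have hB' : B.erase e ⊆ A := by
        intro x hx
        rcases mem_insert.mp (hB (mem_of_mem_erase hx)) with h1 | h1
        · exact absurd h1 (ne_of_mem_erase hx)
        · exact h1
      have h1 := ih hAS' (B.erase e) hB'
      have h2 : ∑ i ∈ B, v i = v e + ∑ i ∈ B.erase e, v i := (add_sum_erase B v heB).symm
      have h3 : ∑ i ∈ insert e A, v i = v e + ∑ i ∈ A, v i := sum_insert he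
      have h4 := h.tight h0
      have h5 := hsub A hAS' B (hB.trans hAS)
      have h6 : A ∪ B = insert e A := by
        ext x
        simp only [mem_union, mem_insert]
        constructor
        · rintro (hx | hx)
          · exact Or.inr hx
          · exact mem_insert.mp (hB hx)
        · rintro (hx | hx)
          · subst hx; exact Or.inr heB
          · exact Or.inl hx
      have h7 : A ∩ B = B.erase e := by
        ext x
        simp only [mem_inter, mem_erase]
        constructor
        · rintro ⟨hx, hx'⟩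
          exact ⟨fun h => he (h ▸ hx), hx'⟩
        · rintro ⟨hx, hx'⟩
          rcases mem_insert.mp (hB hx') with h8 | h8
          · exact absurd h8 hx
          · exact ⟨h8, hx'⟩
      rw [h6, h7] at h5
      linarith
    · refine ih hAS' B ?_
      intro x hx
      rcases mem_insert.mp (hB hx) with h1 | h1
      · exact absurd (h1 ▸ hx) heB
      · exact h1

theorem OV.congr {v' : α → ℤ} {A : Finset α} (h : OV f v A) :
    (∀ i ∈ A, v i = v' i) → OV f v' A := by
  induction h with
  | nil => intro _; exact OV.nil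
  | cons A e he h ht ih =>
    intro hv
    refine OV.cons A e he (ih fun i hi => hv i (mem_insert_of_mem hi)) ?_
    rw [← ht]
    exact sum_congr rfl fun i hi => (hv i hi).symm

/-- The hypotheses on a 2-polymatroid, relative to the ground set `S`. -/
structure Pm (S : Finset α) (f : Finset α → ℤ) : Prop where
  zero : f ∅ = 0
  mono : ∀ A B : Finset α, A ⊆ B → B ⊆ S → f A ≤ f B
  sub : ∀ A ⊆ S, ∀ B ⊆ S, f (A ∪ B) + f (A ∩ B) ≤ f A + f B
  two : ∀ e ∈ S, f {e} ≤ 2
  one : ∀ A ⊆ S, (A.card : ℤ) ≤ f A

/-- The conclusion in the base case. -/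
structure Sol (S : Finset α) (f : Finset α → ℤ) (v : α → ℤ) : Prop where
  nonneg : ∀ i ∈ S, 0 ≤ v i
  le_two : ∀ i ∈ S, v i ≤ 2
  compl : ∀ A ⊆ S, 2 * (A.card : ℤ) - ∑ i ∈ A, v i ≤ f A
  ov : OV f v S

/-- Tight sets separating all pairs give a full chain of tight sets. -/
theorem exists_ov {S : Finset α} (h0 : f ∅ = 0)
    (hsub : ∀ A ⊆ S, ∀ B ⊆ S, f (A ∪ B) + f (A ∩ B) ≤ f A + f B)
    (hv : ∀ A ⊆ S, ∑ i ∈ A, v i ≤ f A) (hS : ∑ i ∈ S, v i = f S)
    (hsep : ∀ i ∈ S, ∀ j ∈ S, i ≠ j → ∃ A ⊆ S, ∑ k ∈ A, v k = f A ∧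
      (i ∈ A ∧ j ∉ A ∨ j ∈ A ∧ i ∉ A)) : OV f v S := by
  have hunion : ∀ A ⊆ S, ∀ B ⊆ S, ∑ k ∈ A, v k = f A → ∑ k ∈ B, v k = f B →
      ∑ k ∈ A ∪ B, v k = f (A ∪ B) ∧ ∑ k ∈ A ∩ B, v k = f (A ∩ B) := by
    intro A hA B hB h1 h2
    have h3 := hsub A hA B hB
    have h4 := hv (A ∪ B) (union_subset hA hB)
    have h5 := hv (A ∩ B) (inter_subset_left.trans hA)
    have h6 : ∑ k ∈ A ∪ B, v k + ∑ k ∈ A ∩ B, v k = ∑ k ∈ A, v k + ∑ k ∈ B, v k :=
      sum_union_inter
    constructor <;> linarith
  -- climb
  have key : ∀ (m : ℕ) (A : Finset α), A ⊆ S → (S \ A).card = m → OV f v A → OV f v S := by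
    intro m
    induction m with
    | zero =>
      intro A hA hc h
      have : S \ A = ∅ := card_eq_zero.mp hc
      have hSA : S ⊆ A := sdiff_eq_empty_iff_subset.mp this
      rwa [Subset.antisymm hSA hA]
    | succ m ih =>
      intro A hA hc h
      -- minimal tight set strictly above `A`
      classical
      let F := (S.powerset).filter (fun B => A ⊂ B ∧ ∑ k ∈ B, v k = f B)
      have hne : F.Nonempty := by
        refine ⟨S, ?_⟩
        simp only [F, mem_filter, mem_powerset]
        refine ⟨le_refl S, ⟨hA, ?_⟩, hS⟩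
        intro hSA
        have : S \ A = ∅ := sdiff_eq_empty_iff_subset.mpr hSA
        rw [this] at hc
        simp at hc
      obtain ⟨B, hB, hmin⟩ := exists_min_image F card hne
      simp only [F, mem_filter, mem_powerset] at hB
      obtain ⟨hBS, hAB, hBt⟩ := hB
      have hone : (B \ A).card = 1 := by
        by_contra hcard
        have hpos : 0 < (B \ A).card := by
          rw [card_pos]
          obtain ⟨x, hx, hx'⟩ := exists_of_ssubset hAB
          exact ⟨x, mem_sdiff.mpr ⟨hx, hx'⟩⟩
        have h2 : 1 < (B \ A).card := by omega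
        obtain ⟨i, hi, j, hj, hij⟩ := one_lt_card.mp h2
        rw [mem_sdiff] at hi hj
        obtain ⟨C, hC, hCt, hCs⟩ := hsep i (hBS hi.1) j (hBS hj.1) hij
        have hCB := (hunion C hC B hBS hCt hBt).2
        have hCBS : C ∩ B ⊆ S := inter_subset_left.trans hC
        have hA' := h.tight h0
        have hU := (hunion A hA (C ∩ B) hCBS hA' hCB).1
        have hmem : ∀ x y : α, x ∈ B → x ∉ A → y ∈ B → y ∉ A → x ∈ C → y ∉ C → False := by
          intro x y hx hxA hy hyA hxC hyC
          have hF : A ∪ (C ∩ B) ∈ F := by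
            simp only [F, mem_filter, mem_powerset]
            refine ⟨union_subset hA hCBS, ⟨subset_union_left, ?_⟩, hU⟩
            intro hcon
            exact hxA (hcon (mem_union_right _ (mem_inter.mpr ⟨hxC, hx⟩)))
          have h5 := hmin _ hF
          have h6 : A ∪ (C ∩ B) ⊂ B := by
            refine ⟨union_subset hAB.1 inter_subset_right, ?_⟩
            intro hcon
            rcases mem_union.mp (hcon hy) with h7 | h7
            · exact hyA h7
            · exact hyC (mem_inter.mp h7).1
          have h7 := card_lt_card h6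
          omega
        rcases hCs with ⟨h5, h6⟩ | ⟨h5, h6⟩
        · exact hmem i j hi.1 hi.2 hj.1 hj.2 h5 h6
        · exact hmem j i hj.1 hj.2 hi.1 hi.2 h5 h6
      obtain ⟨e, he⟩ := card_eq_one.mp hone
      have heB : e ∈ B \ A := by rw [he]; exact mem_singleton_self e
      have heA : e ∉ A := (mem_sdiff.mp heB).2
      have hB' : B = insert e A := by
        ext x
        rw [mem_insert]
        constructor
        · intro hx
          by_cases hxA : x ∈ A
          · exact Or.inr hxA
          · have : x ∈ B \ A := mem_sdiff.mpr ⟨hx, hxA⟩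
            rw [he, mem_singleton] at this
            exact Or.inl this
        · rintro (hx | hx)
          · rw [hx]; exact (mem_sdiff.mp heB).1
          · exact hAB.1 hx
      refine ih (insert e A) (hB' ▸ hBS) ?_ (OV.cons A e heA h (hB' ▸ hBt))
      have h8 : S \ insert e A = (S \ A).erase e := by
        ext x
        simp only [mem_sdiff, mem_insert, mem_erase]
        tauto
      rw [h8, card_erase_of_mem (mem_sdiff.mpr ⟨hBS (mem_sdiff.mp heB).1, heA⟩), hc]
      rfl
  exact key _ ∅ (empty_subset S) rfl OV.nil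

/-- Truncation of a polymatroid rank function. -/
theorem Pm.trunc {S : Finset α} (h : Pm S f) : Pm S (fun A => min (f A) S.card) where
  zero := by
    show min (f ∅) (S.card : ℤ) = 0
    rw [h.zero]
    exact min_eq_left (by positivity)
  mono := fun A B hAB hB => min_le_min_right _ (h.mono A B hAB hB)
  sub := fun A hA B hB => by
    show min (f (A ∪ B)) (S.card : ℤ) + min (f (A ∩ B)) (S.card : ℤ)
      ≤ min (f A) (S.card : ℤ) + min (f B) (S.card : ℤ)
    have h1 := h.sub A hA B hB
    have h2 := h.mono (A ∩ B) B inter_subset_right hB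
    have h3 := h.mono (A ∩ B) A inter_subset_left hA
    rcases le_total (f A) S.card with h4 | h4
    · rcases le_total (f B) S.card with h5 | h5
      · rw [min_eq_left h4, min_eq_left h5]
        exact le_trans (add_le_add (min_le_left _ _) (min_le_left _ _)) h1
      · rw [min_eq_right h5, add_comm]
        exact add_le_add (min_le_min_right _ h3) (min_le_right _ _)
    · rw [min_eq_right h4]
      exact add_le_add (min_le_right _ _) (min_le_min_right _ h2)
  two := fun e he => le_trans (min_le_left _ _) (h.two e he)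
  one := fun A hA => le_min (h.one A hA) (by exact_mod_cast card_le_card hA)

/-- From a chain of the truncation to a chain of `f`. -/
theorem ov_trunc {n : ℤ} (h0 : f ∅ = 0) {A : Finset α}
    (h : OV (fun X => min (f X) n) v A) (hn : 0 ≤ n) :
    (OV f v A ∧ f A ≤ n) ∨ ∃ (A₁ : Finset α) (e : α), e ∉ A₁ ∧ insert e A₁ ⊆ A ∧
      OV f v A₁ ∧ f A₁ ≤ n ∧ n < f (insert e A₁) ∧ ∑ i ∈ insert e A₁, v i = n := by
  induction h with
  | nil => exact Or.inl ⟨OV.nil, by rw [h0]; exact hn⟩
  | cons A e he h ht ih =>
    rcases ih with ⟨h1, h2⟩ | ⟨A₁, e₁, h1, h2, h3⟩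
    · have ht' : ∑ i ∈ insert e A, v i = min (f (insert e A)) n := ht
      rcases le_or_gt (f (insert e A)) n with h3 | h3
      · left
        rw [min_eq_left h3] at ht'
        exact ⟨OV.cons A e he h1 ht', h3⟩
      · right
        rw [min_eq_right h3.le] at ht'
        exact ⟨A, e, he, le_refl _, h1, h2, h3, ht'⟩
    · right
      exact ⟨A₁, e₁, h1, h2.trans (subset_insert e A), h3⟩

/-- The general case, combinatorial form. -/
theorem general {α : Type} [DecidableEq α] (S : Finset α) (f : Finset α → ℤ)
    (h : Pm S f) (hb : ∃ v, Sol S (fun A => min (f A) (S.card : ℤ)) v) : ∃ (v : α → ℤ) (A : Finset α), A ⊆ S ∧ OV f v A ∧ (∀ i ∈ S \ A, v i = 0) ∧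
      (∀ i ∈ S, 0 ≤ v i) ∧ (∀ i ∈ S, v i ≤ 2) ∧
      (∀ B ⊆ S, 2 * (B.card : ℤ) - ∑ i ∈ B, v i ≤ f B) := by
  have hS : (fun A => min (f A) (S.card : ℤ)) S = S.card := min_eq_right (h.one S (le_refl S))
  obtain ⟨v, hv⟩ := hb
  have hcompl : ∀ B ⊆ S, 2 * (B.card : ℤ) - ∑ i ∈ B, v i ≤ f B := fun B hB =>
    le_trans (hv.compl B hB) (min_le_left _ _)
  have hvS : ∑ i ∈ S, v i = S.card := by
    rw [hv.ov.tight h.trunc.zero]; exact hS
  rcases ov_trunc h.zero hv.ov (by positivity) with ⟨h1, _⟩ | ⟨A, e, heA, hAS, hov, hA, hbig, hsum⟩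
  · exact ⟨v, S, le_refl S, h1, by simp, hv.nonneg, hv.le_two, hcompl⟩
  · have heS : e ∈ S := hAS (mem_insert_self e A)
    have hAS' : A ⊆ S := fun x hx => hAS (mem_insert_of_mem hx)
    have hzero : ∀ i ∈ S \ insert e A, v i = 0 := by
      have h2 : ∑ i ∈ S \ insert e A, v i = 0 := by
        have h3 : ∑ i ∈ S \ insert e A, v i + ∑ i ∈ insert e A, v i = ∑ i ∈ S, v i :=
          sum_sdiff hAS
        rw [hsum, hvS] at h3
        linarith
      have h3 : ∀ i ∈ S \ insert e A, 0 ≤ v i := fun i hi => hv.nonneg i (mem_sdiff.mp hi).1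
      exact (sum_eq_zero_iff_of_nonneg h3).mp h2
    have hAt := hov.tight h.zero
    have hins : ∑ i ∈ insert e A, v i = v e + ∑ i ∈ A, v i := sum_insert heA
    have hfe : f (insert e A) ≤ f A + 2 := by
      have h3 := h.sub A hAS' {e} (singleton_subset_iff.mpr heS)
      rw [inter_singleton_of_notMem heA, h.zero] at h3
      have h4 : A ∪ {e} = insert e A := by rw [union_comm]; rfl
      rw [h4] at h3
      have := h.two e heS
      linarith
    by_cases hve : v e = 0
    · refine ⟨v, A, hAS', hov, ?_, hv.nonneg, hv.le_two, hcompl⟩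
      intro i hi
      by_cases hie : i = e
      · rw [hie]; exact hve
      · refine hzero i ?_
        simp only [mem_sdiff, mem_insert] at hi ⊢
        tauto
    · have hve1 : v e = 1 := by
        have h3 := hv.nonneg e heS
        have h4 : 0 < v e := lt_of_le_of_ne h3 (Ne.symm hve)
        linarith
      have hf2 : f (insert e A) = f A + 2 := by linarith
      let w : α → ℤ := Function.update v e 2
      have hwe : w e = 2 := Function.update_self e 2 v
      have hwo : ∀ i, i ≠ e → w i = v i := fun i hi => Function.update_of_ne hi 2 v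
      have hwge : ∀ i, v i ≤ w i := by
        intro i
        by_cases hie : i = e
        · rw [hie, hwe, hve1]; norm_num
        · rw [hwo i hie]
      refine ⟨w, insert e A, hAS, ?_, ?_, ?_, ?_, ?_⟩
      · refine OV.cons A e heA (hov.congr ?_) ?_
        · intro i hi
          exact (hwo i (fun h => heA (h ▸ hi))).symm
        · rw [sum_insert heA, hwe, hf2]
          have : ∑ i ∈ A, w i = ∑ i ∈ A, v i :=
            sum_congr rfl fun i hi => hwo i (fun h => heA (h ▸ hi))
          rw [this, hAt]; ring
      · intro i hi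
        have hie : i ≠ e := by
          rintro rfl
          exact (mem_sdiff.mp hi).2 (mem_insert_self _ _)
        rw [hwo i hie]
        exact hzero i hi
      · intro i hi
        exact le_trans (hv.nonneg i hi) (hwge i)
      · intro i hi
        by_cases hie : i = e
        · rw [hie, hwe]
        · rw [hwo i hie]; exact hv.le_two i hi
      · intro B hB
        refine le_trans ?_ (hcompl B hB)
        have : ∑ i ∈ B, v i ≤ ∑ i ∈ B, w i := sum_le_sum fun i _ => hwge i
        linarith

theorem eq_of_segment {a b x y c : ℝ} (ha : 0 < a) (hb : 0 < b) (hab : a + b = 1)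
    (hx : x ≤ c) (hy : y ≤ c) (h : a * x + b * y = c) : x = c := by
  have h1 : a * (c - x) + b * (c - y) = 0 := by
    have : a * (c - x) + b * (c - y) = (a + b) * c - (a * x + b * y) := by ring
    rw [this, hab, h]; ring
  have h2 : 0 ≤ a * (c - x) := mul_nonneg ha.le (by linarith)
  have h3 : 0 ≤ b * (c - y) := mul_nonneg hb.le (by linarith)
  have h4 : a * (c - x) = 0 := by linarith
  rcases mul_eq_zero.mp h4 with h5 | h5
  · linarith
  · linarith

/-- The conclusion of Frank's statement follows from a good vector for the truncation. -/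
theorem main_of_sol :
    ∀ (n : ℕ) (f : Finset (Fin n) → ℤ),
      f ∅ = 0 →
      Monotone f →
      (∀ A B : Finset (Fin n), f (A ∪ B) + f (A ∩ B) ≤ f A + f B) →
      (∀ e : Fin n, f {e} ≤ 2) →
      (∀ A : Finset (Fin n), (A.card : ℤ) ≤ f A) →
      (∃ v, Sol (univ : Finset (Fin n)) (fun A => min (f A) ((univ : Finset (Fin n)).card : ℤ)) v) →
      ∃ v ∈ Set.extremePoints ℝ
          {x : Fin n → ℝ | (∀ i, 0 ≤ x i) ∧
            ∀ A : Finset (Fin n), ∑ i ∈ A, x i ≤ (f A : ℝ)},
        (∀ i, 0 ≤ 2 - v i) ∧
          ∀ A : Finset (Fin n), ∑ i ∈ A, (2 - v i) ≤ (f A : ℝ) := by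
  intro n f h0 hmono hsub htwo hone hb
  have hP : Pm univ f := ⟨h0, fun A B hAB _ => hmono hAB, fun A _ B _ => hsub A B,
    fun e _ => htwo e, fun A _ => hone A⟩
  obtain ⟨v, A, _, hov, hz, hnn, hle, hc⟩ := general univ f hP hb
  have hsum : ∀ B : Finset (Fin n), ∑ i ∈ B, (v i : ℝ) = ((∑ i ∈ B, v i : ℤ) : ℝ) := by
    intro B; push_cast; rfl
  have hle' : ∀ B : Finset (Fin n), ∑ i ∈ B, v i ≤ f B := by
    intro B
    have h1 : ∑ i ∈ B, v i = ∑ i ∈ B ∩ A, v i := by
      symm
      refine sum_subset inter_subset_left ?_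
      intro x hx hx'
      refine hz x (mem_sdiff.mpr ⟨mem_univ x, fun h => hx' (mem_inter.mpr ⟨hx, h⟩)⟩)
    rw [h1]
    exact le_trans (hov.le univ h0 (fun X _ Y _ => hsub X Y) (subset_univ A) _ inter_subset_right)
      (hmono inter_subset_left)
  refine ⟨fun i => (v i : ℝ), ?_, ?_, ?_⟩
  · rw [mem_extremePoints]
    refine ⟨⟨?_, ?_⟩, ?_⟩
    · intro i
      show (0 : ℝ) ≤ (v i : ℝ)
      exact_mod_cast hnn i (mem_univ i)
    · intro B
      show ∑ i ∈ B, (v i : ℝ) ≤ (f B : ℝ)
      rw [hsum]
      exact_mod_cast hle' B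
    · intro x hx y hy hxy
      obtain ⟨a, b, ha, hb, hab, hxy'⟩ := hxy
      have hco : ∀ i, a * x i + b * y i = (v i : ℝ) := by
        intro i
        have := congrFun hxy' i
        simpa using this
      have haux : ∀ (x y : Fin n → ℝ) (a b : ℝ),
          ((∀ i, 0 ≤ x i) ∧ ∀ A : Finset (Fin n), ∑ i ∈ A, x i ≤ (f A : ℝ)) →
          ((∀ i, 0 ≤ y i) ∧ ∀ A : Finset (Fin n), ∑ i ∈ A, y i ≤ (f A : ℝ)) →
          0 < a → 0 < b → a + b = 1 → (∀ i, a * x i + b * y i = (v i : ℝ)) →
          x = fun i => (v i : ℝ) := by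
        intro x y a b hx hy ha hb hab hco
        have hchain : ∀ B : Finset (Fin n), OV f v B → ∀ i ∈ B, x i = v i := by
          intro B hB
          induction hB with
          | nil => intro i hi; exact absurd hi (notMem_empty i)
          | cons B e he h ht ih =>
            have h1 : ∑ i ∈ insert e B, x i = (f (insert e B) : ℝ) := by
              refine eq_of_segment ha hb hab (hx.2 _) (hy.2 _) ?_
              rw [mul_sum, mul_sum, ← sum_add_distrib]
              rw [sum_congr rfl fun i _ => hco i, hsum, ht]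
            have h2 : ∑ i ∈ insert e B, x i = x e + ∑ i ∈ B, x i := sum_insert he
            have h3 : ∑ i ∈ insert e B, v i = v e + ∑ i ∈ B, v i := sum_insert he
            have h4 : ∑ i ∈ B, x i = ((∑ i ∈ B, v i : ℤ) : ℝ) := by
              rw [← hsum]
              exact sum_congr rfl fun i hi => ih i hi
            have h5 : x e = v e := by
              have h6 : ((v e + ∑ i ∈ B, v i : ℤ) : ℝ) = (f (insert e B) : ℝ) := by
                rw [← h3, ht]
              push_cast at h6
              rw [h2, h4] at h1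
              push_cast at h1
              linarith
            intro i hi
            rcases mem_insert.mp hi with hi | hi
            · rw [hi]; exact h5
            · exact ih i hi
        funext i
        by_cases hiA : i ∈ A
        · exact hchain A hov i hiA
        · have h1 : v i = 0 := hz i (mem_sdiff.mpr ⟨mem_univ i, hiA⟩)
          have h2 := hco i
          rw [h1] at h2 ⊢
          push_cast at h2 ⊢
          have h3 : -x i = 0 := eq_of_segment ha hb hab
            (by have := hx.1 i; linarith) (by have := hy.1 i; linarith)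
            (show a * (-x i) + b * (-y i) = 0 by linarith)
          linarith
      refine ⟨haux x y a b hx hy ha hb hab hco, haux y x b a hy hx hb ha (by linarith) ?_⟩
      intro i
      have := hco i
      linarith
  · intro i
    have := hle i (mem_univ i)
    have h1 : (v i : ℝ) ≤ 2 := by exact_mod_cast this
    linarith
  · intro B
    have h1 := hc B (subset_univ B)
    rw [sum_sub_distrib, hsum, sum_const, nsmul_eq_mul]
    have h2 : ((2 * (B.card : ℤ) - ∑ i ∈ B, v i : ℤ) : ℝ) ≤ (f B : ℝ) := by exact_mod_cast h1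
    push_cast at h2
    push_cast
    linarith

end Pool.Agent.P901b45d
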