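import Pool.Agent.Lib.P901b45d.Base

/-!
Irreducible functions on seven elements, for Frank's question on complementary vertices of integer
2-polymatroids (MP_901b45_co).
-/

set_option autoImplicit false

namespace Pool.Agent.P901b45d

open Finset Pool.Agent.P901b45e

variable {α : Type*} [DecidableEq α] {G : Finset α} {h : Finset α → ℤ} {x : α → ℤ}

/-- `x` has entries `1, -1, 0` and `|x| ≤ h` -/
structure V (G : Finset α) (h : Finset α → ℤ) (x : α → ℤ) : Prop where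
  le : ∀ A ⊆ G, ∑ e ∈ A, x e ≤ h A
  neg_le : ∀ A ⊆ G, -∑ e ∈ A, x e ≤ h A
  val : ∀ e ∈ G, x e = 1 ∨ x e = -1 ∨ x e = 0

theorem V.neg (hv : V G h x) : V G h (fun e => -x e) := by
  refine ⟨?_, ?_, ?_⟩
  · intro A hA; rw [sum_neg_distrib]; exact hv.neg_le A hA
  · intro A hA; rw [sum_neg_distrib, neg_neg]; exact hv.le A hA
  · intro e he
    rcases hv.val e he with h1 | h1 | h1
    · right; left; rw [h1]
    · left; rw [h1]; norm_num
    · right; right; rw [h1]; norm_num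

theorem V.add (hv : V G h x) {a b : α} (hab : a ≠ b)
    (hva : x a = 0 ∨ x a = -1) (hvb : x b = 0 ∨ x b = 1)
    (h1 : ∀ X ⊆ G, ∑ e ∈ X, x e = h X → a ∈ X → b ∈ X)
    (h2 : ∀ X ⊆ G, -∑ e ∈ X, x e = h X → b ∈ X → a ∈ X) :
    V G h (fun e => x e + root a b e) := by
  refine ⟨?_, ?_, ?_⟩
  · intro A hA
    rw [sum_add_distrib, sum_root]
    have h4 := hv.le A hA
    by_cases h5 : a ∈ A
    · by_cases h6 : b ∈ A
      · rw [if_pos h5, if_pos h6]; omega
      · rw [if_pos h5, if_neg h6]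
        have h7 : ∑ e ∈ A, x e ≠ h A := fun h8 => h6 (h1 A hA h8 h5)
        omega
    · rw [if_neg h5]
      split_ifs <;> omega
  · intro A hA
    rw [sum_add_distrib, sum_root]
    have h4 := hv.neg_le A hA
    by_cases h6 : b ∈ A
    · by_cases h5 : a ∈ A
      · rw [if_pos h5, if_pos h6]; omega
      · rw [if_neg h5, if_pos h6]
        have h7 : -∑ e ∈ A, x e ≠ h A := fun h8 => h5 (h2 A hA h8 h6)
        omega
    · rw [if_neg h6]
      split_ifs <;> omega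
  · intro e he
    show x e + root a b e = 1 ∨ x e + root a b e = -1 ∨ x e + root a b e = 0
    unfold root
    by_cases h5 : e = a
    · subst h5
      rw [if_pos rfl, if_neg hab]
      rcases hva with h6 | h6 <;> rw [h6] <;> norm_num
    by_cases h6 : e = b
    · subst h6
      rw [if_neg h5, if_pos rfl]
      rcases hvb with h6 | h6 <;> rw [h6] <;> norm_num
    rw [if_neg h5, if_neg h6]
    rcases hv.val e he with h7 | h7 | h7 <;> rw [h7] <;> norm_num

theorem V.of_add {a b : α} (hv : V G h (fun e => x e + root a b e)) :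
    (∀ X ⊆ G, ∑ e ∈ X, x e = h X → a ∈ X → b ∈ X) ∧
      (∀ X ⊆ G, -∑ e ∈ X, x e = h X → b ∈ X → a ∈ X) := by
  constructor
  · intro X hX h1 h2
    by_contra h3
    have h4 := hv.le X hX
    rw [sum_add_distrib, sum_root, if_pos h2, if_neg h3] at h4
    omega
  · intro X hX h1 h2
    by_contra h3
    have h4 := hv.neg_le X hX
    rw [sum_add_distrib, sum_root, if_pos h2, if_neg h3] at h4
    omega

theorem V.total (hG : h G = 0) (hv : V G h x) : ∑ e ∈ G, x e = 0 := by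
  have h1 := hv.le G (Subset.refl _)
  have h2 := hv.neg_le G (Subset.refl _)
  rw [hG] at h1 h2
  omega

/-- the two lattices of tight sets -/
theorem V.lat (hh : Sub G h) (hv : V G h x) {A B : Finset α} (hA : A ⊆ G) (hB : B ⊆ G)
    (h1 : ∑ e ∈ A, x e = h A) (h2 : ∑ e ∈ B, x e = h B) :
    ∑ e ∈ A ∪ B, x e = h (A ∪ B) ∧ ∑ e ∈ A ∩ B, x e = h (A ∩ B) := by
  have e1 := hh.sub A hA B hB
  have e2 : ∑ e ∈ A ∪ B, x e + ∑ e ∈ A ∩ B, x e = ∑ e ∈ A, x e + ∑ e ∈ B, x e :=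
    Finset.sum_union_inter
  have e3 := hv.le (A ∪ B) (union_subset hA hB)
  have e4 := hv.le (A ∩ B) (inter_subset_left.trans hA)
  constructor <;> omega

/-- no solution: two zeros are tied -/
theorem V.tie (hh : Sub G h) (hG : h G = 0) (hno : ¬ ∃ x, Sol G h x) (hv : V G h x) :
    ∃ i ∈ G, ∃ j ∈ G, i ≠ j ∧ x i = 0 ∧ x j = 0 ∧
      ∀ X ⊆ G, ∑ e ∈ X, x e = h X → (i ∈ X ↔ j ∈ X) := by
  by_contra hne
  push Not at hne
  refine hno ⟨x, sol_of hh hG hv.le hv.neg_le hv.val ?_⟩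
  intro i hi j hj hij h1 h2
  obtain ⟨X, hX, h3, h4⟩ := hne i hi j hj hij h1 h2
  refine ⟨X, hX, h3, ?_⟩
  rcases h4 with h4 | h4
  · exact Or.inl h4
  · exact Or.inr ⟨h4.2, h4.1⟩

theorem V.mtie (hh : Sub G h) (hG : h G = 0) (hno : ¬ ∃ x, Sol G h x) (hv : V G h x) :
    ∃ i ∈ G, ∃ j ∈ G, i ≠ j ∧ x i = 0 ∧ x j = 0 ∧
      ∀ X ⊆ G, -∑ e ∈ X, x e = h X → (i ∈ X ↔ j ∈ X) := by
  obtain ⟨i, hi, j, hj, hij, h1, h2, h3⟩ := hv.neg.tie hh hG hno
  refine ⟨i, hi, j, hj, hij, by omega, by omega, fun X hX h4 => h3 X hX ?_⟩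
  rw [sum_neg_distrib]; exact h4

/-- no solution: at least three zeros -/
theorem V.three (hh : Sub G h) (hG : h G = 0) (hno : ¬ ∃ x, Sol G h x) (hv : V G h x) :
    3 ≤ (G.filter (fun e => x e = 0)).card := by
  by_contra hc
  obtain ⟨i, hi, j, hj, hij, hi0, hj0, h1⟩ := hv.tie hh hG hno
  obtain ⟨k, hk, l, hl, hkl, hk0, hl0, h2⟩ := hv.mtie hh hG hno
  have hZ : G.filter (fun e => x e = 0) = {i, j} := by
    symm
    apply eq_of_subset_of_card_le
    · intro y hy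
      rcases mem_insert.1 hy with rfl | hy
      · exact mem_filter.2 ⟨hi, hi0⟩
      · rw [mem_singleton.1 hy]; exact mem_filter.2 ⟨hj, hj0⟩
    · rw [card_pair hij]; omega
  have hmem : ∀ e ∈ G, x e = 0 → e = i ∨ e = j := by
    intro e he h3
    have h4 : e ∈ G.filter (fun e => x e = 0) := mem_filter.2 ⟨he, h3⟩
    rw [hZ] at h4
    simpa using h4
  have h3 : ∀ X ⊆ G, -∑ e ∈ X, x e = h X → (j ∈ X → i ∈ X) := by
    intro X hX h4
    have h5 := h2 X hX h4
    rcases hmem k hk hk0 with h6 | h6 <;> rcases hmem l hl hl0 with h7 | h7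
    · exact absurd (h6.trans h7.symm) hkl
    · rw [h6, h7] at h5; exact h5.2
    · rw [h6, h7] at h5; exact h5.1
    · exact absurd (h6.trans h7.symm) hkl
  have hw := hv.add hij (Or.inl hi0) (Or.inl hj0) (fun X hX h4 => (h1 X hX h4).1) h3
  obtain ⟨m, hm, -, -, -, hm0, -, -⟩ := hw.tie hh hG hno
  have hm0' : x m + root i j m = 0 := hm0
  by_cases h5 : m = i
  · subst h5
    unfold root at hm0'
    rw [hi0, if_pos rfl, if_neg hij] at hm0'
    omega
  by_cases h6 : m = j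
  · subst h6
    unfold root at hm0'
    rw [hj0, if_neg h5, if_pos rfl] at hm0'
    omega
  have h7 : root i j m = 0 := by
    unfold root
    rw [if_neg h5, if_neg h6]; norm_num
  rw [h7, add_zero] at hm0'
  rcases hmem m hm hm0' with h8 | h8
  · exact h5 h8
  · exact h6 h8

/-- three zeros `s, i, j`, the first two tied for `x`, the first and the last for `-x` -/
structure Shape (G : Finset α) (h : Finset α → ℤ) (x : α → ℤ) (s i j : α) : Prop where
  si : s ≠ i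
  sj : s ≠ j
  ij : i ≠ j
  Z : G.filter (fun e => x e = 0) = {s, i, j}
  L : ∀ X ⊆ G, ∑ e ∈ X, x e = h X → (s ∈ X ↔ i ∈ X)
  M : ∀ X ⊆ G, -∑ e ∈ X, x e = h X → (s ∈ X ↔ j ∈ X)

theorem Shape.mem {s i j : α} (hs : Shape G h x s i j) {e : α} :
    (e = s ∨ e = i ∨ e = j) ↔ (e ∈ G ∧ x e = 0) := by
  have h1 : e ∈ G.filter (fun e => x e = 0) ↔ e ∈ ({s, i, j} : Finset α) := by rw [hs.Z]
  rw [mem_filter] at h1
  simp only [mem_insert, mem_singleton] at h1
  exact h1.symm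

theorem filter_three {s i j : α} (hs : s ∈ G ∧ x s = 0) (hi : i ∈ G ∧ x i = 0)
    (hj : j ∈ G ∧ x j = 0) (si : s ≠ i) (sj : s ≠ j) (ij : i ≠ j)
    (hc : (G.filter (fun e => x e = 0)).card ≤ 3) :
    G.filter (fun e => x e = 0) = {s, i, j} := by
  symm
  apply eq_of_subset_of_card_le
  · intro y hy
    simp only [mem_insert, mem_singleton] at hy
    rcases hy with rfl | rfl | rfl
    · exact mem_filter.2 hs
    · exact mem_filter.2 hi
    · exact mem_filter.2 hj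
  · have : ({s, i, j} : Finset α).card = 3 := by
      rw [card_insert_of_notMem, card_pair ij]
      simp only [mem_insert, mem_singleton]
      push Not
      exact ⟨si, sj⟩
    omega

theorem V.shape (hh : Sub G h) (hG : h G = 0) (hno : ¬ ∃ x, Sol G h x) (hv : V G h x)
    (hc : (G.filter (fun e => x e = 0)).card ≤ 3) : ∃ s i j, Shape G h x s i j := by
  obtain ⟨i, hi, j, hj, hij, hi0, hj0, h1⟩ := hv.tie hh hG hno
  obtain ⟨k, hk, l, hl, hkl, hk0, hl0, h2⟩ := hv.mtie hh hG hno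
  -- the two pairs are different
  have hdiff : ∀ i j : α, i ∈ G → j ∈ G → i ≠ j → x i = 0 → x j = 0 →
      (∀ X ⊆ G, ∑ e ∈ X, x e = h X → (i ∈ X ↔ j ∈ X)) →
      ¬ (∀ X ⊆ G, -∑ e ∈ X, x e = h X → (i ∈ X ↔ j ∈ X)) := by
    intro i j hi hj hij hi0 hj0 h1 h2
    have hw := hv.add hij (Or.inl hi0) (Or.inl hj0) (fun X hX h4 => (h1 X hX h4).1)
      (fun X hX h4 => (h2 X hX h4).2)
    have h3 := hw.three hh hG hno
    have h4 : G.filter (fun e => x e + root i j e = 0) ⊆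
        ((G.filter (fun e => x e = 0)).erase i).erase j := by
      intro m hm
      obtain ⟨hm1, hm0'⟩ := mem_filter.1 hm
      have h5 : m ≠ i := by
        rintro rfl
        unfold root at hm0'
        rw [hi0, if_pos rfl, if_neg hij] at hm0'
        omega
      have h6 : m ≠ j := by
        rintro rfl
        unfold root at hm0'
        rw [hj0, if_neg h5, if_pos rfl] at hm0'
        omega
      have h7 : root i j m = 0 := by
        unfold root
        rw [if_neg h5, if_neg h6]; norm_num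
      rw [h7, add_zero] at hm0'
      exact mem_erase.2 ⟨h6, mem_erase.2 ⟨h5, mem_filter.2 ⟨hm1, hm0'⟩⟩⟩
    have h5 := card_le_card h4
    have h6 : i ∈ G.filter (fun e => x e = 0) := mem_filter.2 ⟨hi, hi0⟩
    have h7 : j ∈ (G.filter (fun e => x e = 0)).erase i :=
      mem_erase.2 ⟨hij.symm, mem_filter.2 ⟨hj, hj0⟩⟩
    rw [card_erase_of_mem h7, card_erase_of_mem h6] at h5
    omega
  have hd := hdiff i j hi hj hij hi0 hj0 h1
  by_cases c1 : k = i
  · subst c1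
    by_cases c2 : l = j
    · subst c2; exact absurd h2 hd
    · exact ⟨k, j, l, hij, hkl, fun e => c2 e.symm, filter_three ⟨hk, hk0⟩ ⟨hj, hj0⟩ ⟨hl, hl0⟩ hij
        hkl (fun e => c2 e.symm) hc, h1, h2⟩
  by_cases c3 : k = j
  · subst c3
    by_cases c2 : l = i
    · subst c2
      exact absurd (fun X hX h4 => (h2 X hX h4).symm) hd
    · exact ⟨k, i, l, fun e => c1 e, hkl, fun e => c2 e.symm, filter_three ⟨hk, hk0⟩ ⟨hi, hi0⟩
        ⟨hl, hl0⟩ (fun e => c1 e) hkl (fun e => c2 e.symm) hc,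
        fun X hX h4 => (h1 X hX h4).symm, h2⟩
  by_cases c4 : l = i
  · subst c4
    exact ⟨l, j, k, hij, hkl.symm, fun e => c3 e.symm, filter_three ⟨hl, hl0⟩ ⟨hj, hj0⟩
      ⟨hk, hk0⟩ hij hkl.symm (fun e => c3 e.symm) hc, h1, fun X hX h4 => (h2 X hX h4).symm⟩
  by_cases c5 : l = j
  · subst c5
    exact ⟨l, i, k, hij.symm, hkl.symm, fun e => c1 e.symm, filter_three ⟨hl, hl0⟩ ⟨hi, hi0⟩
      ⟨hk, hk0⟩ hij.symm hkl.symm (fun e => c1 e.symm) hc,
      fun X hX h4 => (h1 X hX h4).symm, fun X hX h4 => (h2 X hX h4).symm⟩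
  · exfalso
    have h3 : ({i, j, k, l} : Finset α) ⊆ G.filter (fun e => x e = 0) := by
      intro y hy
      simp only [mem_insert, mem_singleton] at hy
      rcases hy with rfl | rfl | rfl | rfl
      · exact mem_filter.2 ⟨hi, hi0⟩
      · exact mem_filter.2 ⟨hj, hj0⟩
      · exact mem_filter.2 ⟨hk, hk0⟩
      · exact mem_filter.2 ⟨hl, hl0⟩
    have h4 : ({i, j, k, l} : Finset α).card = 4 := by
      rw [card_insert_of_notMem, card_insert_of_notMem, card_pair hkl]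
      · simp only [mem_insert, mem_singleton]; push Not
        exact ⟨fun e => c3 e.symm, fun e => c5 e.symm⟩
      · simp only [mem_insert, mem_singleton]; push Not
        exact ⟨hij, fun e => c1 e.symm, fun e => c4 e.symm⟩
    have h5 := card_le_card h3
    omega

/-- two zeros of a vector with three zeros: the exchange is not possible -/
theorem Shape.sep (hh : Sub G h) (hG : h G = 0) (hno : ¬ ∃ x, Sol G h x) (hv : V G h x)
    {s i j : α} (hs : Shape G h x s i j) {u w : α} (hu : u ∈ G ∧ x u = 0) (hw : w ∈ G ∧ x w = 0)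
    (huw : u ≠ w) : ∃ A ⊆ G, (∑ e ∈ A, x e = h A ∧ u ∈ A ∧ w ∉ A) ∨
      (-∑ e ∈ A, x e = h A ∧ w ∈ A ∧ u ∉ A) := by
  by_contra hne
  push Not at hne
  have hx := hv.add huw (Or.inl hu.2) (Or.inl hw.2) (fun X hX h4 h5 => (hne X hX).1 h4 h5)
    (fun X hX h4 h5 => (hne X hX).2 h4 h5)
  have h3 := hx.three hh hG hno
  have hc : (G.filter (fun e => x e = 0)).card ≤ 3 := by
    rw [hs.Z]; exact card_le_three
  have h4 : G.filter (fun e => x e + root u w e = 0) ⊆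
      ((G.filter (fun e => x e = 0)).erase u).erase w := by
    intro m hm
    obtain ⟨hm1, hm0'⟩ := mem_filter.1 hm
    have h5 : m ≠ u := by
      rintro rfl
      unfold root at hm0'
      rw [hu.2, if_pos rfl, if_neg huw] at hm0'
      omega
    have h6 : m ≠ w := by
      rintro rfl
      unfold root at hm0'
      rw [hw.2, if_neg h5, if_pos rfl] at hm0'
      omega
    have h7 : root u w m = 0 := by
      unfold root
      rw [if_neg h5, if_neg h6]; norm_num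
    rw [h7, add_zero] at hm0'
    exact mem_erase.2 ⟨h6, mem_erase.2 ⟨h5, mem_filter.2 ⟨hm1, hm0'⟩⟩⟩
  have h5 := card_le_card h4
  have h6 : u ∈ G.filter (fun e => x e = 0) := mem_filter.2 hu
  have h7 : w ∈ (G.filter (fun e => x e = 0)).erase u :=
    mem_erase.2 ⟨huw.symm, mem_filter.2 hw⟩
  rw [card_erase_of_mem h7, card_erase_of_mem h6] at h5
  omega

/-- the four sets of a shape -/
theorem Shape.sets (hh : Sub G h) (hG : h G = 0) (hno : ¬ ∃ x, Sol G h x) (hv : V G h x)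
    {s i j : α} (hs : Shape G h x s i j) :
    (∃ A ⊆ G, ∑ e ∈ A, x e = h A ∧ j ∈ A ∧ s ∉ A ∧ i ∉ A) ∧
    (∃ A ⊆ G, ∑ e ∈ A, x e = h A ∧ s ∈ A ∧ i ∈ A ∧ j ∉ A) ∧
    (∃ A ⊆ G, -∑ e ∈ A, x e = h A ∧ i ∈ A ∧ s ∉ A ∧ j ∉ A) ∧
    (∃ A ⊆ G, -∑ e ∈ A, x e = h A ∧ s ∈ A ∧ j ∈ A ∧ i ∉ A) := by
  have ms := hs.mem.1 (Or.inl rfl : s = s ∨ s = i ∨ s = j)
  have mi := hs.mem.1 (Or.inr (Or.inl rfl) : i = s ∨ i = i ∨ i = j)
  have mj := hs.mem.1 (Or.inr (Or.inr rfl) : j = s ∨ j = i ∨ j = j)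
  refine ⟨?_, ?_, ?_, ?_⟩
  · obtain ⟨A, hA, h1 | h1⟩ := hs.sep hh hG hno hv mj ms hs.sj.symm
    · exact ⟨A, hA, h1.1, h1.2.1, h1.2.2, fun h2 => h1.2.2 ((hs.L A hA h1.1).2 h2)⟩
    · exact absurd ((hs.M A hA h1.1).1 h1.2.1) h1.2.2
  · obtain ⟨A, hA, h1 | h1⟩ := hs.sep hh hG hno hv ms mj hs.sj
    · exact ⟨A, hA, h1.1, h1.2.1, (hs.L A hA h1.1).1 h1.2.1, h1.2.2⟩
    · exact absurd ((hs.M A hA h1.1).2 h1.2.1) h1.2.2
  · obtain ⟨A, hA, h1 | h1⟩ := hs.sep hh hG hno hv ms mi hs.si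
    · exact absurd ((hs.L A hA h1.1).1 h1.2.1) h1.2.2
    · exact ⟨A, hA, h1.1, h1.2.1, h1.2.2, fun h2 => h1.2.2 ((hs.M A hA h1.1).2 h2)⟩
  · obtain ⟨A, hA, h1 | h1⟩ := hs.sep hh hG hno hv mi ms hs.si.symm
    · exact absurd ((hs.L A hA h1.1).2 h1.2.1) h1.2.2
    · exact ⟨A, hA, h1.1, h1.2.1, (hs.M A hA h1.1).1 h1.2.1, h1.2.2⟩

/-- a zero of a shape can be exchanged with an element of value `-1` -/
theorem Shape.lemB (hh : Sub G h) (hG : h G = 0) (hno : ¬ ∃ x, Sol G h x) (hv : V G h x)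
    {s i j : α} (hs : Shape G h x s i j) {u : α} (hu : u = s ∨ u = i ∨ u = j) :
    ∃ r ∈ G, x r = -1 ∧ V G h (fun e => x e + root r u e) := by
  have mu := hs.mem.1 hu
  have htied : (∃ w, w ≠ u ∧ ∀ X ⊆ G, ∑ e ∈ X, x e = h X → (u ∈ X ↔ w ∈ X)) ∨
      (∃ w, w ≠ u ∧ ∀ X ⊆ G, -∑ e ∈ X, x e = h X → (u ∈ X ↔ w ∈ X)) := by
    rcases hu with rfl | rfl | rfl
    · exact Or.inl ⟨i, hs.si.symm, hs.L⟩
    · exact Or.inl ⟨s, hs.si, fun X hX h1 => (hs.L X hX h1).symm⟩
    · exact Or.inr ⟨s, hs.sj, fun X hX h1 => (hs.M X hX h1).symm⟩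
  by_contra hne
  push Not at hne
  have hsep : ∀ r ∈ G, r ≠ u → (∃ X ⊆ G, ∑ e ∈ X, x e = h X ∧ r ∈ X ∧ u ∉ X) ∨
      (∃ X ⊆ G, -∑ e ∈ X, x e = h X ∧ u ∈ X ∧ r ∉ X) := by
    intro r hr hru
    by_contra h1
    push Not at h1
    obtain ⟨h2, h3⟩ := h1
    rcases hv.val r hr with h4 | h4 | h4
    · have h5 := hv.le {r} (singleton_subset_iff.2 hr)
      have h6 := hh.up ∅ (empty_subset _) r hr
      rw [hh.empty] at h6
      have h7 : h {r} ≤ 1 := by simpa using h6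
      have h8 := h2 {r} (singleton_subset_iff.2 hr) (by rw [sum_singleton] at h5 ⊢; omega)
        (mem_singleton_self r)
      exact hru (mem_singleton.1 h8).symm
    · exact hne r hr h4 (hv.add hru (Or.inr h4) (Or.inl mu.2) h2 h3)
    · obtain ⟨A, hA, h5 | h5⟩ := hs.sep hh hG hno hv ⟨hr, h4⟩ mu hru
      · exact h5.2.2 (h2 A hA h5.1 h5.2.1)
      · exact h5.2.2 (h3 A hA h5.1 h5.2.1)
  have htot := hv.total hG
  -- the smallest tight set of `-x` containing `u`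
  obtain ⟨W, hW, hWmin⟩ := (G.powerset.filter (fun X => -∑ e ∈ X, x e = h X ∧ u ∈ X)).exists_min_image
    (fun X => X.card) ⟨G, mem_filter.2 ⟨mem_powerset.2 (Subset.refl _), by rw [htot, hG]; norm_num,
      mu.1⟩⟩
  obtain ⟨hWG, hWt, huW⟩ := mem_filter.1 hW
  rw [mem_powerset] at hWG
  have hWle : ∀ X ⊆ G, -∑ e ∈ X, x e = h X → u ∈ X → W ⊆ X := by
    intro X hX h1 h2
    have h3 := hv.neg.lat hh hWG hX (by rw [sum_neg_distrib]; exact hWt)
      (by rw [sum_neg_distrib]; exact h1)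
    have h4 : -∑ e ∈ W ∩ X, x e = h (W ∩ X) := by
      have := h3.2
      rwa [sum_neg_distrib] at this
    have h5 := hWmin (W ∩ X) (mem_filter.2 ⟨mem_powerset.2 (inter_subset_left.trans hWG), h4,
      mem_inter.2 ⟨huW, h2⟩⟩)
    have h6 : W ∩ X = W := eq_of_subset_of_card_le inter_subset_left h5
    rw [← h6]
    exact inter_subset_right
  have hU : ∀ S ⊆ W.erase u, ∃ U ⊆ G, ∑ e ∈ U, x e = h U ∧ S ⊆ U ∧ u ∉ U := by
    intro S
    induction S using Finset.induction_on with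
    | empty => intro _; exact ⟨∅, empty_subset _, by rw [sum_empty, hh.empty], Subset.refl _,
        notMem_empty _⟩
    | insert r S hrS ih =>
      intro hsub
      obtain ⟨U, hUG, hUt, hSU, huU⟩ := ih (fun y hy => hsub (mem_insert_of_mem hy))
      have hr := mem_erase.1 (hsub (mem_insert_self r S))
      rcases hsep r (hWG hr.2) hr.1 with ⟨X, hX, h1, h2, h3⟩ | ⟨X, hX, h1, h2, h3⟩
      · refine ⟨U ∪ X, union_subset hUG hX, (hv.lat hh hUG hX hUt h1).1, ?_, ?_⟩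
        · intro y hy
          rcases mem_insert.1 hy with rfl | h4
          · exact mem_union_right _ h2
          · exact mem_union_left _ (hSU h4)
        · intro h4
          rcases mem_union.1 h4 with h5 | h5
          · exact huU h5
          · exact h3 h5
      · exact absurd (hWle X hX h1 h2 hr.2) h3
  obtain ⟨U, hUG, hUt, hWU, huU⟩ := hU _ (Subset.refl _)
  have e1 : U ∪ W = insert u U := by
    ext y
    simp only [mem_union, mem_insert]
    constructor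
    · rintro (h1 | h1)
      · exact Or.inr h1
      · by_cases h2 : y = u
        · exact Or.inl h2
        · exact Or.inr (hWU (mem_erase.2 ⟨h2, h1⟩))
    · rintro (rfl | h1)
      · exact Or.inr huW
      · exact Or.inl h1
  have e2 : U ∩ W = W.erase u := by
    ext y
    simp only [mem_inter, mem_erase]
    constructor
    · rintro ⟨h1, h2⟩
      exact ⟨fun h3 => huU (h3 ▸ h1), h2⟩
    · rintro ⟨h1, h2⟩
      exact ⟨hWU (mem_erase.2 ⟨h1, h2⟩), h2⟩
  have h1 := hh.sub U hUG W hWG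
  rw [e1, e2] at h1
  have h2 := hv.le (insert u U) (insert_subset mu.1 hUG)
  have h3 := hv.neg_le (W.erase u) ((erase_subset _ _).trans hWG)
  have h4 : ∑ e ∈ insert u U, x e = x u + ∑ e ∈ U, x e := sum_insert huU
  have h5 := Finset.add_sum_erase W x huW
  have hu0 := mu.2
  have t1 : ∑ e ∈ insert u U, x e = h (insert u U) := by omega
  have t2 : -∑ e ∈ W.erase u, x e = h (W.erase u) := by omega
  rcases htied with ⟨w, hwu, hw⟩ | ⟨w, hwu, hw⟩
  · have h6 := (hw _ (insert_subset mu.1 hUG) t1).1 (mem_insert_self _ _)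
    rcases mem_insert.1 h6 with h7 | h7
    · exact hwu h7
    · exact huU ((hw U hUG hUt).2 h7)
  · have h6 := (hw W hWG hWt).1 huW
    have h7 := (hw _ ((erase_subset _ _).trans hWG) t2).2 (mem_erase.2 ⟨hwu, h6⟩)
    exact (mem_erase.1 h7).1 rfl

/-- the zeros after an exchange -/
theorem zero_exch {r u : α} (hr : x r = -1) (hu : x u = 0) (e : α) :
    x e + root r u e = 0 ↔ (e = r ∨ (x e = 0 ∧ e ≠ u)) := by
  have hru : r ≠ u := by rintro rfl; omega
  unfold root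
  by_cases h1 : e = r
  · subst h1
    rw [if_pos rfl, if_neg hru, hr]
    simp
  by_cases h2 : e = u
  · subst h2
    rw [if_neg h1, if_pos rfl, hu]
    simp [h1]
  rw [if_neg h1, if_neg h2]
  simp [h1, h2]

theorem Shape.exch (hh : Sub G h) (hG : h G = 0) (hno : ¬ ∃ x, Sol G h x)
    {s i j : α} (hs : Shape G h x s i j) {u : α} (hu : u = s ∨ u = i ∨ u = j) {r : α}
    (hrG : r ∈ G) (hr : x r = -1) (hv1 : V G h (fun e => x e + root r u e)) :
    ∃ s1 i1 j1, Shape G h (fun e => x e + root r u e) s1 i1 j1 ∧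
      ∀ e, (e = s1 ∨ e = i1 ∨ e = j1) ↔ (e = r ∨ ((e = s ∨ e = i ∨ e = j) ∧ e ≠ u)) := by
  have mu := hs.mem.1 hu
  have hc : (G.filter (fun e => x e + root r u e = 0)).card ≤ 3 := by
    have h1 : G.filter (fun e => x e + root r u e = 0) ⊆
        insert r ((G.filter (fun e => x e = 0)).erase u) := by
      intro m hm
      obtain ⟨h2, h3⟩ := mem_filter.1 hm
      rcases (zero_exch hr mu.2 m).1 h3 with h4 | h4
      · exact mem_insert.2 (Or.inl h4)
      · exact mem_insert_of_mem (mem_erase.2 ⟨h4.2, mem_filter.2 ⟨h2, h4.1⟩⟩)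
    have h2 := card_le_card h1
    have h3 := card_insert_le r ((G.filter (fun e => x e = 0)).erase u)
    rw [card_erase_of_mem (mem_filter.2 mu)] at h3
    have h4 : (G.filter (fun e => x e = 0)).card ≤ 3 := by rw [hs.Z]; exact card_le_three
    omega
  obtain ⟨s1, i1, j1, h1⟩ := hv1.shape hh hG hno hc
  refine ⟨s1, i1, j1, h1, fun e => ?_⟩
  rw [h1.mem, hs.mem]
  have h2 := zero_exch hr mu.2 e
  constructor
  · rintro ⟨h3, h4⟩
    rcases h2.1 h4 with h5 | h5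
    · exact Or.inl h5
    · exact Or.inr ⟨⟨h3, h5.1⟩, h5.2⟩
  · rintro (h3 | h3)
    · exact ⟨h3 ▸ hrG, h2.2 (Or.inl h3)⟩
    · exact ⟨h3.1.1, h2.2 (Or.inr ⟨h3.1.2, h3.2⟩)⟩

/-- a tight set that separates the zero `c` from `a` and `b` -/
theorem Shape.pairL (hh : Sub G h) (hG : h G = 0) (hno : ¬ ∃ x, Sol G h x) (hv : V G h x)
    {s i j : α} (hs : Shape G h x s i j) {a b c : α}
    (hz : ∀ e, (e = s ∨ e = i ∨ e = j) ↔ (e = a ∨ e = b ∨ e = c)) {A : Finset α} (hA : A ⊆ G)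
    (ht : ∑ e ∈ A, x e = h A) (ha : a ∈ A ↔ c ∉ A) (hb : b ∈ A ↔ c ∉ A) :
    (∀ X ⊆ G, ∑ e ∈ X, x e = h X → (a ∈ X ↔ b ∈ X)) ∧
      ∃ X ⊆ G, ∑ e ∈ X, x e = h X ∧ c ∈ X ∧ a ∉ X ∧ b ∉ X := by
  have h1 := hs.L A hA ht
  have hsi := hs.si
  have hsj := hs.sj
  have hij := hs.ij
  obtain ⟨⟨X, hX, k1, k2, k3, k4⟩, -⟩ := hs.sets hh hG hno hv
  have hmj : j = c → (∃ X ⊆ G, ∑ e ∈ X, x e = h X ∧ c ∈ X ∧ s ∉ X ∧ i ∉ X) := by
    rintro rfl; exact ⟨X, hX, k1, k2, k3, k4⟩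
  rcases (hz s).1 (Or.inl rfl) with h2 | h2 | h2 <;>
    rcases (hz i).1 (Or.inr (Or.inl rfl)) with h3 | h3 | h3
  · exact absurd (h2.trans h3.symm) hsi
  · have h4 : j = c := by
      rcases (hz j).1 (Or.inr (Or.inr rfl)) with h4 | h4 | h4
      · exact absurd (h2.trans h4.symm) hsj
      · exact absurd (h3.trans h4.symm) hij
      · exact h4
    rw [← h2, ← h3]
    exact ⟨hs.L, hmj h4⟩
  · exfalso; rw [h2, h3] at h1; tauto
  · have h4 : j = c := by
      rcases (hz j).1 (Or.inr (Or.inr rfl)) with h4 | h4 | h4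
      · exact absurd (h3.trans h4.symm) hij
      · exact absurd (h2.trans h4.symm) hsj
      · exact h4
    rw [← h2, ← h3]
    refine ⟨fun X hX h5 => (hs.L X hX h5).symm, ?_⟩
    obtain ⟨X, hX, k1, k2, k3, k4⟩ := hmj h4
    exact ⟨X, hX, k1, k2, k4, k3⟩
  · exact absurd (h2.trans h3.symm) hsi
  · exfalso; rw [h2, h3] at h1; tauto
  · exfalso; rw [h2, h3] at h1; tauto
  · exfalso; rw [h2, h3] at h1; tauto
  · exact absurd (h2.trans h3.symm) hsi

/-- a tight set of `-x` that separates the zero `c` from `a` and `b` -/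
theorem Shape.pairM (hh : Sub G h) (hG : h G = 0) (hno : ¬ ∃ x, Sol G h x) (hv : V G h x)
    {s i j : α} (hs : Shape G h x s i j) {a b c : α}
    (hz : ∀ e, (e = s ∨ e = i ∨ e = j) ↔ (e = a ∨ e = b ∨ e = c)) {A : Finset α} (hA : A ⊆ G)
    (ht : -∑ e ∈ A, x e = h A) (ha : a ∈ A ↔ c ∉ A) (hb : b ∈ A ↔ c ∉ A) :
    (∀ X ⊆ G, -∑ e ∈ X, x e = h X → (a ∈ X ↔ b ∈ X)) ∧
      ∃ X ⊆ G, -∑ e ∈ X, x e = h X ∧ c ∈ X ∧ a ∉ X ∧ b ∉ X := by
  have h1 := hs.M A hA ht
  have hsi := hs.si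
  have hsj := hs.sj
  have hij := hs.ij
  obtain ⟨-, -, ⟨X, hX, k1, k2, k3, k4⟩, -⟩ := hs.sets hh hG hno hv
  have hmi : i = c → (∃ X ⊆ G, -∑ e ∈ X, x e = h X ∧ c ∈ X ∧ s ∉ X ∧ j ∉ X) := by
    rintro rfl; exact ⟨X, hX, k1, k2, k3, k4⟩
  rcases (hz s).1 (Or.inl rfl) with h2 | h2 | h2 <;>
    rcases (hz j).1 (Or.inr (Or.inr rfl)) with h3 | h3 | h3
  · exact absurd (h2.trans h3.symm) hsj
  · have h4 : i = c := by
      rcases (hz i).1 (Or.inr (Or.inl rfl)) with h4 | h4 | h4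
      · exact absurd (h2.trans h4.symm) hsi
      · exact absurd (h4.trans h3.symm) hij
      · exact h4
    rw [← h2, ← h3]
    exact ⟨hs.M, hmi h4⟩
  · exfalso; rw [h2, h3] at h1; tauto
  · have h4 : i = c := by
      rcases (hz i).1 (Or.inr (Or.inl rfl)) with h4 | h4 | h4
      · exact absurd (h4.trans h3.symm) hij
      · exact absurd (h2.trans h4.symm) hsi
      · exact h4
    rw [← h2, ← h3]
    refine ⟨fun X hX h5 => (hs.M X hX h5).symm, ?_⟩
    obtain ⟨X, hX, k1, k2, k3, k4⟩ := hmi h4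
    exact ⟨X, hX, k1, k2, k4, k3⟩
  · exact absurd (h2.trans h3.symm) hsj
  · exfalso; rw [h2, h3] at h1; tauto
  · exfalso; rw [h2, h3] at h1; tauto
  · exfalso; rw [h2, h3] at h1; tauto
  · exact absurd (h2.trans h3.symm) hsj

theorem sum_exch (A : Finset α) (r u : α) : ∑ e ∈ A, (x e + root r u e) =
    ∑ e ∈ A, x e + ((if r ∈ A then 1 else 0) - (if u ∈ A then 1 else 0)) := by
  rw [sum_add_distrib, sum_root]

/-- three zeros and only two elements of value `-1` is impossible -/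
theorem Shape.false (hh : Sub G h) (hG : h G = 0) (hno : ¬ ∃ x, Sol G h x) (hv : V G h x)
    {s i j : α} (hs : Shape G h x s i j) {q q' : α}
    (hq : ∀ e ∈ G, x e = -1 → e = q ∨ e = q') : False := by
  obtain ⟨rs, hrs, hrs1, v1⟩ := hs.lemB hh hG hno hv (u := s) (Or.inl rfl)
  obtain ⟨ri, hri, hri1, v2⟩ := hs.lemB hh hG hno hv (u := i) (Or.inr (Or.inl rfl))
  obtain ⟨rj, hrj, hrj1, v3⟩ := hs.lemB hh hG hno hv (u := j) (Or.inr (Or.inr rfl))
  obtain ⟨s1, i1, j1, S1, z1⟩ := hs.exch hh hG hno (Or.inl rfl) hrs hrs1 v1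
  obtain ⟨s2, i2, j2, S2, z2⟩ := hs.exch hh hG hno (Or.inr (Or.inl rfl)) hri hri1 v2
  obtain ⟨s3, i3, j3, S3, z3⟩ := hs.exch hh hG hno (Or.inr (Or.inr rfl)) hrj hrj1 v3
  obtain ⟨⟨A, hA, a1, a2, a3, a4⟩, ⟨C, hC, c1, c2, c3, c4⟩, ⟨A', hA', a1', a2', a3', a4'⟩,
    ⟨B, hB, b1, b2, b3, b4⟩⟩ := hs.sets hh hG hno hv
  have o1 := v1.of_add
  have o2 := v2.of_add
  have o3 := v3.of_add
  have hsi := hs.si
  have hsj := hs.sj
  have hij := hs.ij
  have hrs' : rs ∉ A := fun h1 => a3 (o1.1 A hA a1 h1)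
  have hri' : ri ∉ A := fun h1 => a4 (o2.1 A hA a1 h1)
  have hrj' : rj ∉ C := fun h1 => c4 (o3.1 C hC c1 h1)
  -- the third vector
  have z3' : ∀ e, (e = s3 ∨ e = i3 ∨ e = j3) ↔ (e = s ∨ e = i ∨ e = rj) := by
    intro e
    rw [z3 e]
    constructor
    · rintro (h1 | ⟨h1 | h1 | h1, h2⟩)
      · exact Or.inr (Or.inr h1)
      · exact Or.inl h1
      · exact Or.inr (Or.inl h1)
      · exact absurd h1 h2
    · rintro (h1 | h1 | h1)
      · exact Or.inr ⟨Or.inl h1, fun h2 => hsj (h1.symm.trans h2)⟩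
      · exact Or.inr ⟨Or.inr (Or.inl h1), fun h2 => hij (h1.symm.trans h2)⟩
      · exact Or.inl h1
  obtain ⟨-, D, hD, d1, d2, d3, d4⟩ := S3.pairL hh hG hno v3 z3' hC
    (by rw [sum_exch, if_neg hrj', if_neg c4, c1]; ring) (by tauto) (by tauto)
  rw [sum_exch, if_pos d2] at d1
  -- `rs ≠ rj`
  have n1 : rs ≠ rj := by
    rintro rfl
    have z1' : ∀ e, (e = s1 ∨ e = i1 ∨ e = j1) ↔ (e = rs ∨ e = i ∨ e = j) := by
      intro e
      rw [z1 e]
      constructor
      · rintro (h1 | ⟨h1 | h1 | h1, h2⟩)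
        · exact Or.inl h1
        · exact absurd h1 h2
        · exact Or.inr (Or.inl h1)
        · exact Or.inr (Or.inr h1)
      · rintro (h1 | h1 | h1)
        · exact Or.inl h1
        · exact Or.inr ⟨Or.inr (Or.inl h1), fun h2 => hsi (h2.symm.trans h1)⟩
        · exact Or.inr ⟨Or.inr (Or.inr h1), fun h2 => hsj (h2.symm.trans h1)⟩
    obtain ⟨l1, -⟩ := S1.pairL hh hG hno v1 z1' hA
      (by rw [sum_exch, if_neg hrs', if_neg a3, a1]; ring) (by tauto) (by tauto)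
    have h1 := v1.le D hD
    rw [sum_exch, if_pos d2, if_neg d3] at h1
    have h2 : j ∉ D := by
      intro h3
      rw [if_pos h3] at d1
      omega
    rw [if_neg h2] at d1
    exact d4 ((l1 D hD (by rw [sum_exch, if_pos d2, if_neg d3]; omega)).1 d2)
  -- `ri ≠ rj`
  have n2 : ri ≠ rj := by
    rintro rfl
    have z2' : ∀ e, (e = s2 ∨ e = i2 ∨ e = j2) ↔ (e = s ∨ e = ri ∨ e = j) := by
      intro e
      rw [z2 e]
      constructor
      · rintro (h1 | ⟨h1 | h1 | h1, h2⟩)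
        · exact Or.inr (Or.inl h1)
        · exact Or.inl h1
        · exact absurd h1 h2
        · exact Or.inr (Or.inr h1)
      · rintro (h1 | h1 | h1)
        · exact Or.inr ⟨Or.inl h1, fun h2 => hsi (h1.symm.trans h2)⟩
        · exact Or.inl h1
        · exact Or.inr ⟨Or.inr (Or.inr h1), fun h2 => hij (h2.symm.trans h1)⟩
    obtain ⟨l2, -⟩ := S2.pairL hh hG hno v2 z2' hA
      (by rw [sum_exch, if_neg hri', if_neg a4, a1]; ring) (by tauto) (by tauto)
    have h1 := v2.le D hD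
    rw [sum_exch, if_pos d2, if_neg d4] at h1
    have h2 : j ∉ D := by
      intro h3
      rw [if_pos h3] at d1
      omega
    rw [if_neg h2] at d1
    exact d3 ((l2 D hD (by rw [sum_exch, if_pos d2, if_neg d4]; omega)).2 d2)
  -- `rs ≠ ri`
  have n3 : rs ≠ ri := by
    rintro rfl
    have z1' : ∀ e, (e = s1 ∨ e = i1 ∨ e = j1) ↔ (e = rs ∨ e = j ∨ e = i) := by
      intro e
      rw [z1 e]
      constructor
      · rintro (h1 | ⟨h1 | h1 | h1, h2⟩)
        · exact Or.inl h1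
        · exact absurd h1 h2
        · exact Or.inr (Or.inr h1)
        · exact Or.inr (Or.inl h1)
      · rintro (h1 | h1 | h1)
        · exact Or.inl h1
        · exact Or.inr ⟨Or.inr (Or.inr h1), fun h2 => hsj (h2.symm.trans h1)⟩
        · exact Or.inr ⟨Or.inr (Or.inl h1), fun h2 => hsi (h2.symm.trans h1)⟩
    have hrA' : rs ∈ A' := o2.2 A' hA' a1' a2'
    have hrB : rs ∈ B := o1.2 B hB b1 b2
    obtain ⟨-, E, hE, e1, e2, e3, e4⟩ := S1.pairM hh hG hno v1 z1' hB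
      (by rw [sum_exch, if_pos hrB, if_pos b2]; omega) (by tauto) (by tauto)
    rw [sum_exch, if_neg e3] at e1
    have k1 := hh.sub E hE A' hA'
    have k2 : ∑ e ∈ E ∪ A', x e + ∑ e ∈ E ∩ A', x e = ∑ e ∈ E, x e + ∑ e ∈ A', x e :=
      Finset.sum_union_inter
    have k3 := hv.neg_le (E ∪ A') (union_subset hE hA')
    have k4 := hv.neg_le (E ∩ A') (inter_subset_left.trans hE)
    have k5 : -∑ e ∈ E ∩ A', x e ≠ h (E ∩ A') := by
      intro h1
      have h2 := o2.2 (E ∩ A') (inter_subset_left.trans hE) h1 (mem_inter.2 ⟨e2, a2'⟩)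
      exact e3 (mem_inter.1 h2).1
    have k6 : s ∈ E := by
      by_contra h1
      rw [if_neg h1] at e1
      omega
    rw [if_pos k6] at e1
    have k7 := (hs.M (E ∪ A') (union_subset hE hA') (by omega)).1 (mem_union_left _ k6)
    rcases mem_union.1 k7 with h1 | h1
    · exact e4 h1
    · exact a4' h1
  rcases hq rs hrs hrs1 with h1 | h1 <;> rcases hq ri hri hri1 with h2 | h2 <;>
    rcases hq rj hrj hrj1 with h3 | h3
  · exact n3 (h1.trans h2.symm)
  · exact n3 (h1.trans h2.symm)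
  · exact n1 (h1.trans h3.symm)
  · exact n2 (h2.trans h3.symm)
  · exact n2 (h2.trans h3.symm)
  · exact n1 (h1.trans h3.symm)
  · exact n3 (h1.trans h2.symm)
  · exact n3 (h1.trans h2.symm)

/-- irreducible functions on at most seven elements -/
theorem base_seven (hh : Sub G h) (hG : h G = 0) (hirr : ∀ A ⊆ G, A ≠ ∅ → A ≠ G → 1 ≤ h A)
    (hc : G.card ≤ 7) : ∃ x, Sol G h x := by
  by_contra hno
  have hcard : ¬ G.card ≤ 1 := fun h1 => hno (base_six hh hG hirr (by omega))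
  by_cases hfour : ∃ p ∈ G, ∃ p' ∈ G, ∃ q ∈ G, ∃ q' ∈ G, p ≠ p' ∧ q ≠ q' ∧ p ≠ q ∧ p ≠ q' ∧
        p' ≠ q ∧ p' ≠ q' ∧ ∀ A ⊆ G, ∑ e ∈ A, vec p p' q q' e ≤ h A ∧
          -∑ e ∈ A, vec p p' q q' e ≤ h A
  swap
  · exact hno (sol_of_no_four hh hG hirr hcard hfour)
  obtain ⟨p, hp, p', hp', q, hq, q', hq', a1, a2, a3, a4, a5, a6, h3⟩ := hfour
  have hval := vec_val a1 a2 a3 a4 a5 a6
  have hv : V G h (vec p p' q q') := by
    refine ⟨fun A hA => (h3 A hA).1, fun A hA => (h3 A hA).2, fun e _ => ?_⟩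
    rcases hval e with h4 | h4 | h4
    · exact Or.inl h4
    · exact Or.inr (Or.inl h4)
    · exact Or.inr (Or.inr h4.1)
  have hz : (G.filter (fun e => vec p p' q q' e = 0)).card ≤ 3 := by
    have h4 : G.filter (fun e => vec p p' q q' e = 0) ⊆
        ((((G.erase p).erase p').erase q).erase q') := by
      intro e he
      obtain ⟨h5, h6⟩ := mem_filter.1 he
      rcases hval e with h7 | h7 | h7
      · omega
      · omega
      · exact mem_erase.2 ⟨h7.2.2.2.2, mem_erase.2 ⟨h7.2.2.2.1, mem_erase.2 ⟨h7.2.2.1,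
          mem_erase.2 ⟨h7.2.1, h5⟩⟩⟩⟩
    have h5 := card_le_card h4
    have m1 : p' ∈ G.erase p := mem_erase.2 ⟨a1.symm, hp'⟩
    have m2 : q ∈ (G.erase p).erase p' := mem_erase.2 ⟨a5.symm, mem_erase.2 ⟨a3.symm, hq⟩⟩
    have m3 : q' ∈ ((G.erase p).erase p').erase q :=
      mem_erase.2 ⟨a2.symm, mem_erase.2 ⟨a6.symm, mem_erase.2 ⟨a4.symm, hq'⟩⟩⟩
    rw [card_erase_of_mem m3, card_erase_of_mem m2, card_erase_of_mem m1,
      card_erase_of_mem hp] at h5
    omega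
  obtain ⟨s, i, j, hs⟩ := hv.shape hh hG hno hz
  refine hs.false hh hG hno hv (q := q) (q' := q') ?_
  intro e _ he
  by_contra hne
  push Not at hne
  have : vec p p' q q' e ≠ -1 := by
    unfold vec
    rw [if_neg hne.1, if_neg hne.2]
    split_ifs <;> norm_num
  exact this he

end Pool.Agent.P901b45d
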